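import Pool.Agent.TH296.Nut.Join
import Pool.Agent.TH991.Nut.Orders

/-!
Orders of regular nut graphs: all degrees.
-/

namespace Pool.Agent.TH296.Nut

open Finset

theorem good_of_N {ρ n : ℕ} (h : n ∈ Pool.Agent.TH991.Nut.N ρ) : Good ρ n := by
  obtain ⟨V, i1, i2, G, i3, hc, hreg, h2, x, hx, hk⟩ := h
  have hsum : ∀ (y : V → ℝ) (v : V), ∑ w, (G.adjMatrix ℝ) v w * y w =
      ((G.adjMatrix ℝ).mulVec y) v := by
    intro y v
    rfl
  refine ⟨V, i1, fun v w => (G.adjMatrix ℝ) v w, x, ⟨?_, ?_, ?_, ?_, hx, ?_, ?_⟩, hc⟩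
  · intro v w
    simp only [SimpleGraph.adjMatrix_apply]
    split_ifs <;> simp
  · intro v w
    simp only [SimpleGraph.adjMatrix_apply, G.adj_comm]
  · intro v
    simp
  · intro v
    have h3 : ((G.degree v : ℕ) : ℝ) = ρ := by
      rw [hreg v]
    rw [← h3]
    simp only [SimpleGraph.adjMatrix_apply]
    rw [← SimpleGraph.card_neighborFinset_eq_degree, SimpleGraph.neighborFinset_eq_filter,
      Finset.card_filter]
    push_cast
    rfl
  · intro v
    rw [hsum, (hk x).2 ⟨1, by simp⟩]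
    rfl
  · intro y hy
    obtain ⟨c, hc'⟩ := (hk y).1 (by
      funext v
      rw [← hsum]
      exact hy v)
    refine ⟨c, fun v => ?_⟩
    rw [hc']
    rfl

theorem seed_five {n : ℕ} (hn : 15 ≤ n) : Good (n - 5) n :=
  good_of_N (Pool.Agent.TH991.Nut.mem_five hn)

theorem good_join {ρ n : ℕ} (hρ : Even ρ) (h26 : 26 ≤ ρ) (hn : 4 ∣ n) (hn2 : ρ + 6 ≤ n) (j : ℕ) :
    GoodE ρ 1 (n + j * (ρ + 5)) := by
  induction j with
  | zero => simpa using goodE_four (r := 1) hρ (by omega) (by omega) hn hn2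
  | succ j ih =>
    have := ih.join (ρ1 := 10) (ρ2 := ρ - 15) (n1 := 15) (n2 := ρ - 10)
      (by simpa using seed_five (n := 15) le_rfl)
      (by
        have := seed_five (n := ρ - 10) (by omega)
        rwa [show ρ - 10 - 5 = ρ - 15 by omega] at this)
      (by omega) (by omega) (by omega) (by omega) (by omega) (by omega)
    convert this using 1
    rw [show 15 + (ρ - 10) = ρ + 5 by omega]
    ring

theorem good_even26 {ρ n : ℕ} (hρ : Even ρ) (h26 : 26 ≤ ρ) (hn2 : 4 * ρ + 21 ≤ n) : Good ρ n := by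
  have hodd : (ρ + 5) % 2 = 1 := by
    obtain ⟨s, rfl⟩ := hρ
    omega
  obtain ⟨j, hj, hdv4⟩ : ∃ j : ℕ, j ≤ 3 ∧ 4 ∣ (n - j * (ρ + 5)) := by
    have h1 : n % 4 = 0 ∨ n % 4 = 1 ∨ n % 4 = 2 ∨ n % 4 = 3 := by omega
    have h2 : (ρ + 5) % 4 = 1 ∨ (ρ + 5) % 4 = 3 := by omega
    rcases h1 with h1 | h1 | h1 | h1 <;> rcases h2 with h2 | h2
    · exact ⟨0, by omega, by omega⟩
    · exact ⟨0, by omega, by omega⟩
    · exact ⟨1, by omega, by omega⟩
    · exact ⟨3, by omega, by omega⟩
    · exact ⟨2, by omega, by omega⟩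
    · exact ⟨2, by omega, by omega⟩
    · exact ⟨3, by omega, by omega⟩
    · exact ⟨1, by omega, by omega⟩
  have hle : j * (ρ + 5) ≤ 3 * (ρ + 5) := Nat.mul_le_mul_right _ hj
  have := (good_join hρ h26 hdv4 (by omega) j).good
  convert this using 1
  omega

open Classical in
theorem even_mul_of_mem {ρ n : ℕ} (h : n ∈ nutOrders ρ) : Even (n * ρ) := by
  obtain ⟨V, _, G, rfl, hreg, _⟩ := h
  have h1 := G.sum_degrees_eq_twice_card_edges
  simp only [hreg.degree_eq, Finset.sum_const, Finset.card_univ, smul_eq_mul] at h1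
  exact ⟨G.edgeFinset.card, by rw [h1]; ring⟩

theorem good_large {ρ n : ℕ} (h7 : 7 ≤ ρ) (h8 : ρ ≠ 8) (h16 : ρ ≠ 16) (hn : 7 * ρ + 11 ≤ n)
    (he : Even (n * ρ)) : Good ρ n := by
  rcases Nat.even_or_odd ρ with hev | hodd
  · by_cases h26 : 26 ≤ ρ
    · exact good_even26 hev h26 (by omega)
    · have key : ∀ d, Odd d → 3 ≤ d → d ∣ ρ → 3 * d ≤ 3 * ρ → Good ρ n :=
        fun d h1 h2 h3 h4 => good_even_deg hev (by omega) h1 h2 h3 (by omega)
      have hc : ρ = 10 ∨ ρ = 12 ∨ ρ = 14 ∨ ρ = 18 ∨ ρ = 20 ∨ ρ = 22 ∨ ρ = 24 := by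
        obtain ⟨s, rfl⟩ := hev
        omega
      rcases hc with e | e | e | e | e | e | e <;> subst e
      · exact key 5 (by decide) (by norm_num) (by norm_num) (by norm_num)
      · exact key 3 (by decide) (by norm_num) (by norm_num) (by norm_num)
      · exact key 7 (by decide) (by norm_num) (by norm_num) (by norm_num)
      · exact key 3 (by decide) (by norm_num) (by norm_num) (by norm_num)
      · exact key 5 (by decide) (by norm_num) (by norm_num) (by norm_num)
      · exact key 11 (by decide) (by norm_num) (by norm_num) (by norm_num)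
      · exact key 3 (by decide) (by norm_num) (by norm_num) (by norm_num)
  · have hne : Even n := by
      rcases Nat.even_mul.1 he with h | h
      · exact h
      · exact absurd h (Nat.not_even_iff_odd.2 hodd)
    exact good_even hodd h7 hne hn

theorem good_sixteen {n : ℕ} (hn : 641 ≤ n) : Good 16 n := by
  have h := Pool.Agent.TH991.Nut.cofin_even (ρ := 16) (n := n) (by norm_num) (by norm_num)
    (by decide) (by norm_num; exact hn)
  rw [← Pool.Agent.TH991.Nut.Fow.mem_iff] at h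
  exact good_of_N h

end Pool.Agent.TH296.Nut
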