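import Mathlib

/-!
Regular nut graphs: definitions and two general constructions.
-/

namespace Pool.Agent.TH296.Nut

open Finset

open Classical in
/-- A nut graph: at least two vertices, and the kernel of the real adjacency matrix is the line
spanned by a vector with no zero entry. -/
def IsNut {V : Type} [Fintype V] (G : SimpleGraph V) : Prop :=
  2 ≤ Fintype.card V ∧ ∃ x : V → ℝ, (∀ v, x v ≠ 0) ∧
    LinearMap.ker (Matrix.toLin' (G.adjMatrix ℝ)) = Submodule.span ℝ {x}

open Classical in
/-- The set of orders of regular nut graphs of degree ρ. -/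
def nutOrders (ρ : ℕ) : Set ℕ :=
  {n | ∃ (V : Type) (_ : Fintype V) (G : SimpleGraph V),
    Fintype.card V = n ∧ G.IsRegularOfDegree ρ ∧ IsNut G}

/-- A weight matrix form of a regular nut graph. -/
structure NW (V : Type) [Fintype V] (ρ : ℕ) (W : V → V → ℝ) (x : V → ℝ) : Prop where
  zo : ∀ v w, W v w = 0 ∨ W v w = 1
  symm : ∀ v w, W v w = W w v
  diag : ∀ v, W v v = 0
  deg : ∀ v, ∑ w, W v w = ρ
  nz : ∀ v, x v ≠ 0
  ker : ∀ v, ∑ w, W v w * x w = 0
  uniq : ∀ y : V → ℝ, (∀ v, ∑ w, W v w * y w = 0) → ∃ c : ℝ, ∀ v, y v = c * x v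

theorem NW.mem {V : Type} [Fintype V] {ρ : ℕ} {W : V → V → ℝ} {x : V → ℝ}
    (h : NW V ρ W x) (h2 : 2 ≤ Fintype.card V) : Fintype.card V ∈ nutOrders ρ := by
  classical
  let G : SimpleGraph V := SimpleGraph.mk (fun v w => W v w = 1)
    ⟨fun v w (hvw : W v w = 1) => (h.symm v w) ▸ hvw⟩ (by
      constructor
      intro v hv
      rw [h.diag v] at hv
      exact zero_ne_one hv)
  have hadj : ∀ v w, G.Adj v w ↔ W v w = 1 := fun v w => Iff.rfl
  have hW : ∀ v w, W v w = if G.Adj v w then (1 : ℝ) else 0 := by
    intro v w
    rcases h.zo v w with h0 | h1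
    · rw [if_neg]
      · exact h0
      · rw [hadj, h0]
        exact zero_ne_one
    · rw [if_pos]
      · exact h1
      · exact (hadj v w).2 h1
  have hmul : ∀ (y : V → ℝ) (v : V),
      (Matrix.toLin' (G.adjMatrix ℝ) y) v = ∑ w, W v w * y w := by
    intro y v
    rw [Matrix.toLin'_apply, Matrix.mulVec, dotProduct]
    refine Finset.sum_congr rfl fun w _ => ?_
    rw [SimpleGraph.adjMatrix_apply]
    congr 1
    convert (hW v w).symm
  refine ⟨V, inferInstance, G, rfl, ?_, h2, x, h.nz, ?_⟩
  · intro v
    have h1 : ((G.degree v : ℕ) : ℝ) = ρ := by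
      rw [← h.deg v, ← SimpleGraph.card_neighborFinset_eq_degree,
        SimpleGraph.neighborFinset_eq_filter, Finset.card_filter]
      push_cast
      refine Finset.sum_congr rfl fun w _ => ?_
      convert (hW v w).symm
    exact_mod_cast h1
  · ext y
    rw [LinearMap.mem_ker, Submodule.mem_span_singleton]
    constructor
    · intro hy
      obtain ⟨c, hc⟩ := h.uniq y (fun v => by rw [← hmul, hy]; rfl)
      refine ⟨c, ?_⟩
      funext v
      rw [hc v]
      rfl
    · rintro ⟨c, rfl⟩
      funext v
      rw [hmul]
      have : ∑ w, W v w * (c • x) w = c * ∑ w, W v w * x w := by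
        rw [Finset.mul_sum]
        refine Finset.sum_congr rfl fun w _ => ?_
        simp only [Pi.smul_apply, smul_eq_mul]
        ring
      rw [this, h.ker v, mul_zero]
      rfl

/-! ### Fowler's construction -/

section Fowler

open Classical in
/-- Weights of the enlarged graph. -/
noncomputable def fw {V : Type} (W : V → V → ℝ) (v : V) :
    (V ⊕ ({u // W v u = 1} ⊕ {u // W v u = 1})) →
    (V ⊕ ({u // W v u = 1} ⊕ {u // W v u = 1})) → ℝ
  | .inl a, .inl b => if a = v ∨ b = v then 0 else W a b
  | .inl a, .inr (.inl _) => if a = v then 1 else 0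
  | .inr (.inl _), .inl a => if a = v then 1 else 0
  | .inl a, .inr (.inr i) => if a = i.1 then 1 else 0
  | .inr (.inr i), .inl a => if a = i.1 then 1 else 0
  | .inr (.inl i), .inr (.inr j) => if i = j then 0 else 1
  | .inr (.inr i), .inr (.inl j) => if i = j then 0 else 1
  | .inr (.inl _), .inr (.inl _) => 0
  | .inr (.inr _), .inr (.inr _) => 0

open Classical in
/-- The kernel vector of the enlarged graph. -/
noncomputable def fx {V : Type} (W : V → V → ℝ) (v : V) (ρ : ℕ) (x : V → ℝ) :
    (V ⊕ ({u // W v u = 1} ⊕ {u // W v u = 1})) → ℝ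
  | .inl a => if a = v then - ((ρ : ℝ) - 1) * x v else x a
  | .inr (.inl i) => x i.1
  | .inr (.inr _) => x v

variable {V : Type} [Fintype V] {ρ : ℕ} {W : V → V → ℝ} {x : V → ℝ}

open Classical in
theorem sumN (h : NW V ρ W x) (v : V) (g : V → ℝ) :
    ∑ i : {u // W v u = 1}, g i.1 = ∑ b, W v b * g b := by
  have h1 : ∑ b, W v b * g b = ∑ b ∈ univ.filter (fun b => W v b = 1), g b := by
    rw [Finset.sum_filter]
    refine Finset.sum_congr rfl fun b _ => ?_
    rcases h.zo v b with h0 | h1
    · rw [h0, zero_mul, if_neg zero_ne_one]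
    · rw [h1, one_mul, if_pos rfl]
  rw [h1]
  exact (Finset.sum_subtype _ (by simp) g).symm

open Classical in
theorem cardN (h : NW V ρ W x) (v : V) : Fintype.card {u // W v u = 1} = ρ := by
  have h1 := sumN h v (fun _ => (1 : ℝ))
  simp only [Finset.sum_const, mul_one, nsmul_eq_mul, h.deg v, Finset.card_univ] at h1
  exact_mod_cast h1

open Classical in
theorem sum_split {v : V} (F : (V ⊕ ({u // W v u = 1} ⊕ {u // W v u = 1})) → ℝ) :
    ∑ z, F z = ∑ a, F (.inl a) + (∑ i, F (.inr (.inl i)) + ∑ i, F (.inr (.inr i))) := by
  rw [Fintype.sum_sum_type, Fintype.sum_sum_type]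

open Classical in
theorem NW.fowler (h : NW V ρ W x) (hρ : 2 ≤ ρ) (v : V) :
    NW (V ⊕ ({u // W v u = 1} ⊕ {u // W v u = 1})) ρ (fw W v) (fx W v ρ x) := by
  have hone : ∀ a, ∑ i : {u // W v u = 1}, (if a = i.1 then (1 : ℝ) else 0) = W v a := by
    intro a
    rw [sumN h v (fun b => if a = b then (1 : ℝ) else 0)]
    simp
  have hc : ((Fintype.card {u // W v u = 1} : ℕ) : ℝ) = ρ := by rw [cardN h v]
  have hρ' : (2 : ℝ) ≤ ρ := by exact_mod_cast hρ
  -- the kernel sums
  have hEa : ∀ (y : (V ⊕ ({u // W v u = 1} ⊕ {u // W v u = 1})) → ℝ) (a : V), a ≠ v →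
      ∑ z, fw W v (.inl a) z * y z = (∑ b, if b = v then 0 else W a b * y (.inl b)) +
        ∑ i : {u // W v u = 1}, (if a = i.1 then (1 : ℝ) else 0) * y (.inr (.inr i)) := by
    intro y a ha
    rw [sum_split]
    simp only [fw, ha, false_or, if_false, zero_mul, Finset.sum_const_zero, zero_add]
    congr 1
    refine Finset.sum_congr rfl fun b _ => ?_
    split_ifs <;> simp
  have hEv : ∀ (y : (V ⊕ ({u // W v u = 1} ⊕ {u // W v u = 1})) → ℝ),
      ∑ z, fw W v (.inl v) z * y z = ∑ i, y (.inr (.inl i)) := by
    intro y
    rw [sum_split]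
    simp only [fw, true_or, if_true, zero_mul, Finset.sum_const_zero, zero_add, one_mul]
    have : ∑ i : {u // W v u = 1}, (if v = i.1 then (1 : ℝ) else 0) * y (.inr (.inr i)) = 0 := by
      refine Finset.sum_eq_zero fun i _ => ?_
      rw [if_neg, zero_mul]
      intro hv
      have h1 := i.2
      rw [← hv, h.diag v] at h1
      exact zero_ne_one h1
    rw [this, add_zero]
  have hEq : ∀ (y : (V ⊕ ({u // W v u = 1} ⊕ {u // W v u = 1})) → ℝ) (i : {u // W v u = 1}),
      ∑ z, fw W v (.inr (.inl i)) z * y z =
        y (.inl v) + (∑ j, y (.inr (.inr j)) - y (.inr (.inr i))) := by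
    intro y i
    rw [sum_split]
    simp only [fw, ite_mul, one_mul, zero_mul, Finset.sum_const_zero, zero_add,
      Finset.sum_ite_eq', Finset.mem_univ, if_true]
    congr 1
    have : ∀ j, (if i = j then 0 else y (.inr (.inr j))) =
        y (.inr (.inr j)) - if i = j then y (.inr (.inr j)) else 0 := by
      intro j
      split_ifs <;> simp
    simp only [this, Finset.sum_sub_distrib, Finset.sum_ite_eq, Finset.mem_univ, if_true]
  have hEp : ∀ (y : (V ⊕ ({u // W v u = 1} ⊕ {u // W v u = 1})) → ℝ) (i : {u // W v u = 1}),
      ∑ z, fw W v (.inr (.inr i)) z * y z =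
        y (.inl i.1) + (∑ j, y (.inr (.inl j)) - y (.inr (.inl i))) := by
    intro y i
    rw [sum_split]
    simp only [fw, ite_mul, one_mul, zero_mul, Finset.sum_const_zero, add_zero,
      Finset.sum_ite_eq', Finset.mem_univ, if_true]
    congr 1
    have : ∀ j, (if i = j then 0 else y (.inr (.inl j))) =
        y (.inr (.inl j)) - if i = j then y (.inr (.inl j)) else 0 := by
      intro j
      split_ifs <;> simp
    simp only [this, Finset.sum_sub_distrib, Finset.sum_ite_eq, Finset.mem_univ, if_true]
  have hrow : ∀ (g : V → ℝ) (a : V),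
      (∑ b, if b = v then 0 else W a b * g b) = ∑ b, W a b * g b - W a v * g v := by
    intro g a
    have : ∀ b, (if b = v then 0 else W a b * g b) =
        W a b * g b - if b = v then W a b * g b else 0 := by
      intro b
      split_ifs <;> simp
    simp only [this, Finset.sum_sub_distrib, Finset.sum_ite_eq', Finset.mem_univ, if_true]
  refine ⟨?_, ?_, ?_, ?_, ?_, ?_, ?_⟩
  · -- zero-one
    rintro (a | (i | i)) (b | (j | j)) <;> simp only [fw]
    · split_ifs
      · exact Or.inl rfl
      · exact h.zo a b
    all_goals first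
      | exact Or.inl trivial
      | exact Or.inl rfl
      | (split_ifs <;> simp)
  · rintro (a | (i | i)) (b | (j | j)) <;> simp only [fw]
    · rw [h.symm a b]
      by_cases h1 : a = v <;> by_cases h2 : b = v <;> simp [h1, h2]
    all_goals by_cases h1 : i = j <;> simp [h1, eq_comm]
  · rintro (a | (i | i)) <;> simp only [fw]
    split_ifs
    · rfl
    · exact h.diag a
  · -- degrees
    rintro (a | (i | i))
    · by_cases ha : a = v
      · subst ha
        have := hEv (fun _ => 1)
        simp only [mul_one] at this
        rw [this]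
        simp only [Finset.sum_const, Finset.card_univ, nsmul_eq_mul, mul_one, hc]
      · have := hEa (fun _ => 1) a ha
        simp only [mul_one] at this
        rw [this, hone a]
        have h2 := hrow (fun _ => 1) a
        simp only [mul_one] at h2
        rw [h2, h.deg a, h.symm a v]
        ring
    · have := hEq (fun _ => 1) i
      simp only [mul_one] at this
      rw [this]
      simp only [Finset.sum_const, Finset.card_univ, nsmul_eq_mul, mul_one, hc]
      ring
    · have := hEp (fun _ => 1) i
      simp only [mul_one] at this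
      rw [this]
      simp only [Finset.sum_const, Finset.card_univ, nsmul_eq_mul, mul_one, hc]
      ring
  · rintro (a | (i | i)) <;> simp only [fx]
    · split_ifs
      · have h1 := h.nz v
        have h2 : -((ρ : ℝ) - 1) ≠ 0 := by
          intro h3
          linarith
        exact mul_ne_zero h2 h1
      · exact h.nz a
    · exact h.nz i.1
    · exact h.nz v
  · rintro (a | (i | i))
    · by_cases ha : a = v
      · subst ha
        rw [hEv]
        simp only [fx]
        rw [sumN h a x, h.ker a]
      · rw [hEa _ a ha]
        simp only [fx]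
        rw [← Finset.sum_mul, hone a]
        have h1 : (∑ b, if b = v then 0 else W a b * (if b = v then -((ρ : ℝ) - 1) * x v else x b))
            = ∑ b, if b = v then 0 else W a b * x b := by
          refine Finset.sum_congr rfl fun b _ => ?_
          split_ifs <;> rfl
        rw [h1, hrow x a, h.ker a, h.symm a v]
        ring
    · rw [hEq]
      simp only [fx, if_true, Finset.sum_const, Finset.card_univ, nsmul_eq_mul, hc]
      ring
    · rw [hEp]
      simp only [fx]
      rw [sumN h v x, h.ker v, if_neg]
      · ring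
      · intro h1
        have h2 := i.2
        rw [h1, h.diag v] at h2
        exact zero_ne_one h2
  · intro y hy
    have hQ : ∑ i, y (.inr (.inl i)) = 0 := by rw [← hEv y]; exact hy _
    have hQi : ∀ i : {u // W v u = 1}, y (.inr (.inl i)) = y (.inl i.1) := by
      intro i
      have h1 := hy (.inr (.inr i))
      rw [hEp, hQ] at h1
      linarith
    have hPi : ∀ i : {u // W v u = 1}, y (.inr (.inr i)) =
        y (.inl v) + ∑ j, y (.inr (.inr j)) := by
      intro i
      have h1 := hy (.inr (.inl i))
      rw [hEq] at h1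
      linarith
    set P : ℝ := y (.inl v) + ∑ j, y (.inr (.inr j)) with hP
    have hsumP : ∑ j : {u // W v u = 1}, y (.inr (.inr j)) = ρ * P := by
      simp only [hPi, Finset.sum_const, Finset.card_univ, nsmul_eq_mul, hc]
    have hyv : y (.inl v) = -((ρ : ℝ) - 1) * P := by
      have : P = y (.inl v) + ρ * P := by
        rw [← hsumP]
      linarith
    obtain ⟨c, hcx⟩ := h.uniq (fun w => if w = v then P else y (.inl w)) (by
      intro a
      have h1 := hrow (fun w => if w = v then P else y (.inl w)) a
      have h2 : (∑ b, if b = v then 0 else W a b * (if b = v then P else y (.inl b)))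
          = ∑ b, if b = v then 0 else W a b * y (.inl b) := by
        refine Finset.sum_congr rfl fun b _ => ?_
        split_ifs <;> rfl
      by_cases ha : a = v
      · subst ha
        have h3 : ∑ i : {u // W a u = 1}, y (.inr (.inl i)) =
            ∑ b, W a b * y (.inl b) := by
          rw [← sumN h a (fun b => y (.inl b))]
          exact Finset.sum_congr rfl fun i _ => hQi i
        rw [hQ] at h3
        have h4 := hrow (fun w => y (.inl w)) a
        rw [h.diag a] at h4 h1
        simp only [] at h1 h4 h2
        linarith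
      · have h3 := hy (.inl a)
        rw [hEa y a ha] at h3
        have h5 : ∑ i : {u // W v u = 1}, (if a = i.1 then (1 : ℝ) else 0) * y (.inr (.inr i)) =
            W v a * P := by
          simp only [hPi]
          rw [← Finset.sum_mul, hone a]
        rw [h5] at h3
        simp only [if_true] at h1
        rw [h2, h.symm a v] at h1
        linarith)
    refine ⟨c, ?_⟩
    have hPc : P = c * x v := by simpa using hcx v
    rintro (a | (i | i)) <;> simp only [fx]
    · split_ifs with ha
      · subst ha
        rw [hyv, hPc]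
        ring
      · simpa [ha] using hcx a
    · rw [hQi i]
      have hi : i.1 ≠ v := by
        intro h1
        have h2 := i.2
        rw [h1, h.diag v] at h2
        exact zero_ne_one h2
      simpa [hi] using hcx i.1
    · rw [hPi i, hPc]

end Fowler

end Pool.Agent.TH296.Nut
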