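import Pool.Agent.TH296.Nut.CaseB

/-!
Orders of regular nut graphs of odd degree.
-/

namespace Pool.Agent.TH296.Nut

open Finset

section

variable {M : ℕ} [NeZero M]

theorem exists_symm (F : Finset (ZMod M)) (hFs : ∀ x, x ∈ F → -x ∈ F)
    (hF2 : ∀ x : ZMod M, x = -x → x ∈ F) :
    ∀ j : ℕ, 2 * j + F.card ≤ M → ∃ T : Finset (ZMod M), (∀ x, x ∈ T → -x ∈ T) ∧
      (∀ x, x ∈ T → x ∉ F) ∧ T.card = 2 * j := by
  intro j
  induction j with
  | zero =>
    intro _
    exact ⟨∅, by simp, by simp, by simp⟩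
  | succ j ih =>
    intro hj
    obtain ⟨T, hT1, hT2, hT3⟩ := ih (by omega)
    have hcard : (T ∪ F).card < Fintype.card (ZMod M) := by
      rw [ZMod.card]
      have := Finset.card_union_le T F
      omega
    obtain ⟨x, hx⟩ : ∃ x, x ∉ T ∪ F := by
      by_contra hcon
      push Not at hcon
      have : T ∪ F = Finset.univ := Finset.eq_univ_iff_forall.2 hcon
      rw [this, Finset.card_univ] at hcard
      exact lt_irrefl _ hcard
    rw [Finset.mem_union] at hx
    push Not at hx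
    have hnF : -x ∉ F := by
      intro h
      have := hFs _ h
      rw [neg_neg] at this
      exact hx.2 this
    have hnT : -x ∉ T := by
      intro h
      have := hT1 _ h
      rw [neg_neg] at this
      exact hx.1 this
    have hne : x ≠ -x := fun h => hx.2 (hF2 x h)
    refine ⟨insert x (insert (-x) T), ?_, ?_, ?_⟩
    · intro y hy
      rw [Finset.mem_insert, Finset.mem_insert] at hy
      rw [Finset.mem_insert, Finset.mem_insert]
      rcases hy with h | h | h
      · rw [h]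
        exact Or.inr (Or.inl rfl)
      · rw [h, neg_neg]
        exact Or.inl rfl
      · exact Or.inr (Or.inr (hT1 _ h))
    · intro y hy
      rw [Finset.mem_insert, Finset.mem_insert] at hy
      rcases hy with h | h | h
      · rw [h]
        exact hx.2
      · rw [h]
        exact hnF
      · exact hT2 _ h
    · rw [Finset.card_insert_of_notMem, Finset.card_insert_of_notMem hnT, hT3]
      · ring
      · rw [Finset.mem_insert]
        push Not
        exact ⟨hne, hx.1⟩

end

/-- Weighted form of the existence of a regular nut graph. -/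
def Good (ρ n : ℕ) : Prop :=
  ∃ (V : Type) (_ : Fintype V) (W : V → V → ℝ) (x : V → ℝ), NW V ρ W x ∧ Fintype.card V = n

theorem Good.mem {ρ n : ℕ} (h : Good ρ n) (hn : 2 ≤ n) : n ∈ nutOrders ρ := by
  obtain ⟨V, _, W, x, h1, rfl⟩ := h
  exact h1.mem hn

theorem Good.step {ρ n : ℕ} (h : Good ρ n) (hn : 0 < n) (hρ : 2 ≤ ρ) : Good ρ (n + 2 * ρ) := by
  classical
  obtain ⟨V, _, W, x, h1, rfl⟩ := h
  obtain ⟨v⟩ : Nonempty V := Fintype.card_pos_iff.1 hn
  refine ⟨_, inferInstance, _, _, h1.fowler hρ v, ?_⟩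
  rw [Fintype.card_sum, Fintype.card_sum]
  have := cardN h1 v
  have h2 : Fintype.card {u // W v u = 1} = ρ := by
    convert this
  rw [h2]
  ring

theorem Good.steps {ρ n : ℕ} (h : Good ρ n) (hn : 0 < n) (hρ : 2 ≤ ρ) (j : ℕ) :
    Good ρ (n + 2 * ρ * j) := by
  induction j with
  | zero => simpa using h
  | succ j ih =>
    have := ih.step (by omega) hρ
    convert this using 1
    ring

theorem good_eight {ρ n : ℕ} (hρ : Odd ρ) (hρ7 : 7 ≤ ρ) (hn : 8 ∣ n) (hn2 : ρ + 11 ≤ n) :
    Good ρ n := by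
  obtain ⟨k, rfl⟩ := hn
  obtain ⟨r, rfl⟩ := hρ
  -- M = 2 k
  have hk : 3 ≤ k := by omega
  have : NeZero (2 * k) := ⟨by omega⟩
  set h : ZMod (2 * k) := ((k : ℕ) : ZMod (2 * k)) with hh
  have hhh : -h = h := by
    rw [neg_eq_iff_add_eq_zero, hh]
    have : ((2 * k : ℕ) : ZMod (2 * k)) = 0 := ZMod.natCast_self _
    rw [← this]
    push_cast
    ring
  have hcast : ∀ i : ℕ, 0 < i → i < 2 * k → ((i : ℕ) : ZMod (2 * k)) ≠ 0 := by
    intro i hi hi2
    rw [Ne, ZMod.natCast_eq_zero_iff]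
    intro hd
    have := Nat.le_of_dvd hi hd
    omega
  have hh0 : h ≠ 0 := hcast k (by omega) (by omega)
  have hh1 : h ≠ 1 := by
    intro h1
    apply hcast (k - 1) (by omega) (by omega)
    rw [Nat.cast_sub (by omega)]
    rw [← hh, h1]
    simp
  set F : Finset (ZMod (2 * k)) := {0, 1, -1, 2, -2, h} with hF
  have hFc : F.card ≤ 6 := Finset.card_le_six
  have hFs : ∀ x, x ∈ F → -x ∈ F := by
    intro x hx
    simp only [hF, Finset.mem_insert, Finset.mem_singleton] at hx ⊢
    rcases hx with e | e | e | e | e | e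
    · simp [e]
    · simp [e]
    · simp [e]
    · simp [e]
    · simp [e]
    · rw [e]
      exact Or.inr (Or.inr (Or.inr (Or.inr (Or.inr hhh))))
  have hF2 : ∀ x : ZMod (2 * k), x = -x → x ∈ F := by
    intro x hx
    have h1 := (ZMod.neg_eq_self_iff x).1 hx.symm
    rcases h1 with h1 | h1
    · simp [hF, h1]
    · have h2 : x.val = k := by omega
      have h3 : x = h := by
        have h4 : ((x.val : ℕ) : ZMod (2 * k)) = x := ZMod.natCast_zmod_val x
        rw [h2] at h4
        exact h4.symm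
      simp [hF, h3]
  -- choose the sizes
  obtain ⟨j, x, hjx, hj, hx⟩ : ∃ j x : ℕ, 2 * j + x + 3 = r ∧ 2 * j + 6 ≤ 2 * k ∧ x + 3 ≤ 2 * k := by
    by_cases hc : r ≤ 2 * k
    · exact ⟨0, r - 3, by omega, by omega, by omega⟩
    · refine ⟨(r - 2 * k + 1) / 2, r - 3 - 2 * ((r - 2 * k + 1) / 2), ?_, ?_, ?_⟩ <;> omega
  obtain ⟨T, hT1, hT2, hT3⟩ := exists_symm F hFs hF2 j (by omega)
  have hTh : h ∉ T := fun hc => hT2 h hc (by simp [hF])
  obtain ⟨X, hX1, hX2⟩ : ∃ X ⊆ (Finset.univ \ ({0, -1, -3} : Finset (ZMod (2 * k)))),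
      X.card = x := by
    apply Finset.exists_subset_card_eq
    have h1 := Finset.le_card_sdiff ({0, -1, -3} : Finset (ZMod (2 * k))) Finset.univ
    have h2 : ({0, -1, -3} : Finset (ZMod (2 * k))).card ≤ 3 := Finset.card_le_three
    rw [Finset.card_univ, ZMod.card] at h1
    omega
  have hXn : ∀ y, y ∈ X → y ≠ 0 ∧ y ≠ -1 ∧ y ≠ -3 := by
    intro y hy
    have := hX1 hy
    simp only [Finset.mem_sdiff, Finset.mem_univ, true_and, Finset.mem_insert,
      Finset.mem_singleton, not_or] at this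
    exact this
  have hSD := caseB (M := 2 * k) (by omega) (2 * r + 1) (insert h T) T X
    (by
      intro y hy
      rw [Finset.mem_insert] at hy ⊢
      rcases hy with e | e
      · rw [e, hhh]
        exact Or.inl rfl
      · exact Or.inr (hT1 _ e))
    hT1
    (by
      rw [Finset.mem_insert]
      push Not
      exact ⟨hh0.symm, fun hc => hT2 _ hc (by simp [hF])⟩)
    (by
      rw [Finset.mem_insert]
      push Not
      exact ⟨hh1.symm, fun hc => hT2 _ hc (by simp [hF])⟩)
    (fun hc => hT2 _ hc (by simp [hF]))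
    (fun hc => hT2 _ hc (by simp [hF]))
    (fun hc => hT2 _ hc (by simp [hF]))
    (fun hc => (hXn _ hc).1 rfl)
    (fun hc => (hXn _ hc).2.1 rfl)
    (fun hc => (hXn _ hc).2.2 rfl)
    (by
      rw [Finset.card_insert_of_notMem hTh, hT3, hX2]
      omega)
    (by
      rw [hT3, hX2]
      omega)
  refine ⟨_, inferInstance, _, _, hSD.double (by omega), ?_⟩
  simp only [Fintype.card_prod, ZMod.card, Fintype.card_bool]
  ring

theorem good_even {ρ n : ℕ} (hρ : Odd ρ) (hρ7 : 7 ≤ ρ) (hn : Even n) (hn2 : 7 * ρ + 11 ≤ n) :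
    Good ρ n := by
  obtain ⟨r, rfl⟩ := hρ
  obtain ⟨m, rfl⟩ := hn
  obtain ⟨j, hj, hd⟩ : ∃ j : ℕ, j ≤ 3 ∧ 8 ∣ (m + m - 2 * (2 * r + 1) * j) := by
    have h1 : m % 4 = 0 ∨ m % 4 = 1 ∨ m % 4 = 2 ∨ m % 4 = 3 := by omega
    have h2 : r % 2 = 0 ∨ r % 2 = 1 := by omega
    rcases h1 with h1 | h1 | h1 | h1 <;> rcases h2 with h2 | h2
    · exact ⟨0, by omega, by omega⟩
    · exact ⟨0, by omega, by omega⟩
    · exact ⟨1, by omega, by omega⟩
    · exact ⟨3, by omega, by omega⟩
    · exact ⟨2, by omega, by omega⟩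
    · exact ⟨2, by omega, by omega⟩
    · exact ⟨3, by omega, by omega⟩
    · exact ⟨1, by omega, by omega⟩
  have hle : 2 * (2 * r + 1) * j ≤ 2 * (2 * r + 1) * 3 := Nat.mul_le_mul_left _ hj
  have h1 := good_eight (ρ := 2 * r + 1) ⟨r, rfl⟩ hρ7 hd (by omega)
  have h2 := h1.steps (by omega) (by omega) j
  convert h2 using 1
  omega

open Classical in
theorem even_of_mem {ρ n : ℕ} (hρ : Odd ρ) (h : n ∈ nutOrders ρ) : Even n := by
  obtain ⟨V, _, G, rfl, hreg, _⟩ := h
  have h1 := G.sum_degrees_eq_twice_card_edges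
  simp only [hreg.degree_eq, Finset.sum_const, Finset.card_univ, smul_eq_mul] at h1
  have h2 : Even (Fintype.card V * ρ) := ⟨G.edgeFinset.card, by rw [h1]; ring⟩
  rcases Nat.even_mul.1 h2 with h3 | h3
  · exact h3
  · exact absurd h3 (Nat.not_even_iff_odd.2 hρ)

end Pool.Agent.TH296.Nut
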