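import Pool.Agent.TH296.Nut.Gadget
import Pool.Agent.TH296.Nut.Final

/-!
The circulant signed digraph used for even degrees, and the orders of regular nut graphs of even
degree.
-/

namespace Pool.Agent.TH296.Nut

open Finset

section

variable {M : ℕ} [NeZero M]

/-- The signed digraph: plus on the next vertex, minus on the one after it. -/
noncomputable def la (k l : ZMod M) : ℝ :=
  (if l - k = 1 then 1 else 0) + (if l - k = 2 then -1 else 0)

/-- The circulant graph Z. -/
noncomputable def za (T : Finset (ZMod M)) (k l : ZMod M) : ℝ := if l - k ∈ T then 1 else 0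

theorem la_row (u : ZMod M → ℝ) (k : ZMod M) :
    ∑ l, la k l * u l = u (k + 1) - u (k + 2) := by
  rw [← Equiv.sum_comp (Equiv.addLeft k)]
  simp [la, add_mul, Finset.sum_add_distrib]
  ring

theorem la_col (u : ZMod M → ℝ) (k : ZMod M) :
    ∑ l, la l k * u l = u (k - 1) - u (k - 2) := by
  rw [← Equiv.sum_comp (Equiv.subLeft k)]
  simp [la, add_mul, Finset.sum_add_distrib]
  ring

theorem caseA (hM : 5 ≤ M) (ρ : ℕ) (T : Finset (ZMod M))
    (hs : ∀ x, x ∈ T → -x ∈ T)
    (h0 : (0 : ZMod M) ∉ T) (h1 : (1 : ZMod M) ∉ T) (h2 : (2 : ZMod M) ∉ T)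
    (hc : 2 * T.card + 4 = ρ) :
    SD (ZMod M) ρ la (za T) (fun _ => 1) := by
  have hcast : ∀ i : ℕ, 0 < i → i < M → ((i : ℕ) : ZMod M) ≠ 0 := by
    intro i hi hi2
    rw [Ne, ZMod.natCast_eq_zero_iff]
    intro hd
    have := Nat.le_of_dvd hi hd
    omega
  have n1 : (1 : ZMod M) ≠ 0 := by exact_mod_cast hcast 1 (by norm_num) (by omega)
  have n2 : (2 : ZMod M) ≠ 0 := by exact_mod_cast hcast 2 (by norm_num) (by omega)
  have n3 : (3 : ZMod M) ≠ 0 := by exact_mod_cast hcast 3 (by norm_num) (by omega)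
  have n4 : (4 : ZMod M) ≠ 0 := by exact_mod_cast hcast 4 (by norm_num) (by omega)
  have m21 : (2 : ZMod M) ≠ 1 := fun h => n1 (by linear_combination h)
  have m12 : (1 : ZMod M) ≠ 2 := m21.symm
  have hsupp : ∀ k l : ZMod M, la k l ≠ 0 → l - k = 1 ∨ l - k = 2 := by
    intro k l h
    by_contra hcon
    push Not at hcon
    simp [la, hcon.1, hcon.2] at h
  have hsq : ∀ k l : ZMod M, (la k l) ^ 2 =
      (if l - k = 1 then 1 else 0) + (if l - k = 2 then 1 else 0) := by
    intro k l
    unfold la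
    by_cases e1 : l - k = 1
    · simp [e1, m12]
    · by_cases e2 : l - k = 2
      · simp [e2, m21]
      · simp [e1, e2]
  refine ⟨?_, ?_, ?_, ?_, ?_, ?_, ?_, ?_, ?_, ?_, ?_, ?_, ?_⟩
  · intro k l
    unfold la
    by_cases e1 : l - k = 1
    · simp [e1, m12]
    · by_cases e2 : l - k = 2
      · simp [e2, m21]
      · simp [e1, e2]
  · intro k
    by_contra h
    rcases hsupp _ _ h with e | e
    · rw [sub_self] at e
      exact n1 e.symm
    · rw [sub_self] at e
      exact n2 e.symm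
  · intro k l h
    by_contra h'
    rcases hsupp _ _ h with e1 | e1 <;> rcases hsupp _ _ h' with e2 | e2
    · exact n2 (by linear_combination -e1 - e2)
    · exact n3 (by linear_combination -e1 - e2)
    · exact n3 (by linear_combination -e1 - e2)
    · exact n4 (by linear_combination -e1 - e2)
  · intro k
    have := la_row (fun _ => (1 : ℝ)) k
    simpa using this
  · intro u hu
    have hC : ∀ t, u (t + 1) = u t := by
      intro t
      have e := hu (t - 1)
      rw [la_row] at e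
      have e1 : t - 1 + 1 = t := by ring
      have e2 : t - 1 + 2 = t + 1 := by ring
      rw [e1, e2] at e
      linarith
    exact ⟨u 0, const_of_step u hC⟩
  · intro k
    rw [la_col]
    ring
  · intro u hu
    have hC : ∀ t, u (t + 1) = u t := by
      intro t
      have e := hu (t + 2)
      rw [la_col] at e
      have e1 : t + 2 - 1 = t + 1 := by ring
      have e2 : t + 2 - 2 = t := by ring
      rw [e1, e2] at e
      linarith
    refine ⟨u 0, fun l => ?_⟩
    rw [const_of_step u hC l, mul_one]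
  · intro l
    exact one_ne_zero
  · intro k l
    unfold za
    split_ifs <;> simp
  · intro k l
    unfold za
    have e : k - l = -(l - k) := by ring
    by_cases h : l - k ∈ T
    · rw [if_pos h, if_pos]
      rw [e]
      exact hs _ h
    · rw [if_neg h, if_neg]
      rw [e]
      intro h'
      have := hs _ h'
      rw [neg_neg] at this
      exact h this
  · intro k
    unfold za
    rw [sub_self, if_neg h0]
  · intro k l h
    by_contra h'
    apply h
    unfold za
    rcases hsupp _ _ h' with e | e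
    · rw [e, if_neg h1]
    · rw [e, if_neg h2]
  · intro k
    simp only [hsq]
    have e1 : ∑ l : ZMod M, ((if l - k = 1 then (1 : ℝ) else 0) + (if l - k = 2 then 1 else 0))
        = 2 := by
      rw [← Equiv.sum_comp (Equiv.addLeft k)]
      simp [Finset.sum_add_distrib]
      norm_num
    have e2 : ∑ l : ZMod M, ((if k - l = 1 then (1 : ℝ) else 0) + (if k - l = 2 then 1 else 0))
        = 2 := by
      rw [← Equiv.sum_comp (Equiv.subLeft k)]
      simp [Finset.sum_add_distrib]
      norm_num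
    have e3 : ∑ l : ZMod M, za T k l = T.card := by
      unfold za
      rw [← Equiv.sum_comp (Equiv.addLeft k)]
      simp
    rw [e1, e2, e3]
    have : 2 * (T.card : ℝ) + 4 = ρ := by exact_mod_cast hc
    linarith

end

/-- A regular nut graph with marked disjoint edges on which the kernel vector is 1. -/
def GoodE (ρ r n : ℕ) : Prop :=
  ∃ (V : Type) (_ : Fintype V) (W : V → V → ℝ) (x : V → ℝ) (i : Fin r × Bool → V),
    NW V ρ W x ∧ Fintype.card V = n ∧ Function.Injective i ∧
    (∀ p, W (i p) (i (flip p)) = 1) ∧ ∀ p, x (i p) = 1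

theorem GoodE.good {ρ r n : ℕ} (h : GoodE ρ r n) : Good ρ n := by
  obtain ⟨V, iV, W, x, i, h1, h2, _⟩ := h
  exact ⟨V, iV, W, x, h1, h2⟩

theorem GoodE.step {ρ r n : ℕ} (h : GoodE ρ r n) (hr : 0 < r) (hρ : 4 * r + 2 ≤ ρ)
    (hd : (2 * r + 1) ∣ ρ) : GoodE ρ r (n + (ρ + (2 * r + 1))) := by
  classical
  obtain ⟨V, iV, W, x, i, h1, rfl, h3, h4, h5⟩ := h
  have : NeZero (ρ + (2 * r + 1)) := ⟨by omega⟩
  have hd' : (2 * r + 1) ∣ (ρ + (2 * r + 1)) := Dvd.dvd.add hd (dvd_refl _)
  have k := kg (h := ρ + (2 * r + 1)) (r := r) rfl hρ hd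
  set h := ρ + (2 * r + 1) with hh
  have hg := h1.glue h3 h4 k (gfun h r (fun _ => 1))
    (ker_of hh _ (gfun_per hd' _) (gfun_sum hd' _))
    (by
      intro p
      rw [gfun_jj hd', h5])
    (by
      intro u
      unfold gfun gval
      by_cases e : u.val % (2 * r + 1) / 2 < r
      · rw [dif_pos e]
        exact one_ne_zero
      · rw [dif_neg e]
        simp only [Finset.sum_const, Finset.card_univ, Fintype.card_prod, Fintype.card_fin,
          Fintype.card_bool, nsmul_eq_mul, mul_one]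
        have : ((r * 2 : ℕ) : ℝ) ≠ 0 := by
          have : r * 2 ≠ 0 := by omega
          exact_mod_cast this
        exact neg_ne_zero.2 this)
  refine ⟨V ⊕ ZMod h, inferInstance, _, _,
    fun p => if p.2 then .inr (jj h r (p.1, false)) else .inl (i (p.1, false)), hg, ?_, ?_, ?_, ?_⟩
  · rw [Fintype.card_sum, ZMod.card]
  · rintro ⟨e, b⟩ ⟨e', b'⟩ hp
    cases b <;> cases b' <;> simp at hp
    · have := h3 hp
      simpa using this
    · have := k.inj hp
      simpa using this
  · have key : ∀ e : Fin r, crs i (jj h r) (i (e, false)) (jj h r (e, false)) = 1 := by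
      intro e
      unfold crs
      rw [if_pos ⟨(e, false), rfl, rfl⟩]
    rintro ⟨e, b⟩
    cases b
    · exact key e
    · exact key e
  · rintro ⟨e, b⟩
    cases b
    · exact h5 _
    · exact gfun_jj hd' _ _

theorem GoodE.steps {ρ r n : ℕ} (h : GoodE ρ r n) (hr : 0 < r) (hρ : 4 * r + 2 ≤ ρ)
    (hd : (2 * r + 1) ∣ ρ) (j : ℕ) : GoodE ρ r (n + j * (ρ + (2 * r + 1))) := by
  induction j with
  | zero => simpa using h
  | succ j ih =>
    have := ih.step hr hρ hd
    convert this using 1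
    ring

theorem exists_T {k z : ℕ} (hk : 3 ≤ k) (hz : z + 5 ≤ 2 * k) :
    ∃ T : Finset (ZMod (2 * k)), (∀ x, x ∈ T → -x ∈ T) ∧ (0 : ZMod (2 * k)) ∉ T ∧
      (1 : ZMod (2 * k)) ∉ T ∧ (2 : ZMod (2 * k)) ∉ T ∧ T.card = z := by
  have : NeZero (2 * k) := ⟨by omega⟩
  set h : ZMod (2 * k) := ((k : ℕ) : ZMod (2 * k)) with hh
  have hhh : -h = h := by
    rw [neg_eq_iff_add_eq_zero, hh]
    have : ((2 * k : ℕ) : ZMod (2 * k)) = 0 := ZMod.natCast_self _
    rw [← this]
    push_cast
    ring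
  have hcast : ∀ i : ℕ, 0 < i → i < 2 * k → ((i : ℕ) : ZMod (2 * k)) ≠ 0 := by
    intro i hi hi2
    rw [Ne, ZMod.natCast_eq_zero_iff]
    intro hd
    have := Nat.le_of_dvd hi hd
    omega
  have hh0 : h ≠ 0 := hcast k (by omega) (by omega)
  have hh1 : h ≠ 1 := by
    intro h1
    apply hcast (k - 1) (by omega) (by omega)
    rw [Nat.cast_sub (by omega)]
    rw [← hh, h1]
    simp
  have hh2 : h ≠ 2 := by
    intro h1
    apply hcast (k - 2) (by omega) (by omega)
    rw [Nat.cast_sub (by omega)]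
    rw [← hh, h1]
    simp
  set F : Finset (ZMod (2 * k)) := {0, 1, -1, 2, -2, h} with hF
  have hFc : F.card ≤ 6 := Finset.card_le_six
  have hFs : ∀ x, x ∈ F → -x ∈ F := by
    intro x hx
    simp only [hF, Finset.mem_insert, Finset.mem_singleton] at hx ⊢
    rcases hx with e | e | e | e | e | e
    · simp [e]
    · simp [e]
    · simp [e]
    · simp [e]
    · simp [e]
    · rw [e]
      exact Or.inr (Or.inr (Or.inr (Or.inr (Or.inr hhh))))
  have hF2 : ∀ x : ZMod (2 * k), x = -x → x ∈ F := by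
    intro x hx
    have h1 := (ZMod.neg_eq_self_iff x).1 hx.symm
    rcases h1 with h1 | h1
    · simp [hF, h1]
    · have h2 : x.val = k := by omega
      have h3 : x = h := by
        have h4 : ((x.val : ℕ) : ZMod (2 * k)) = x := ZMod.natCast_zmod_val x
        rw [h2] at h4
        exact h4.symm
      simp [hF, h3]
  rcases Nat.even_or_odd' z with ⟨j, rfl | rfl⟩
  · obtain ⟨T, hT1, hT2, hT3⟩ := exists_symm F hFs hF2 j (by omega)
    exact ⟨T, hT1, fun hc => hT2 _ hc (by simp [hF]), fun hc => hT2 _ hc (by simp [hF]),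
      fun hc => hT2 _ hc (by simp [hF]), hT3⟩
  · obtain ⟨T, hT1, hT2, hT3⟩ := exists_symm F hFs hF2 j (by omega)
    have hTh : h ∉ T := fun hc => hT2 h hc (by simp [hF])
    refine ⟨insert h T, ?_, ?_, ?_, ?_, ?_⟩
    · intro y hy
      rw [Finset.mem_insert] at hy ⊢
      rcases hy with e | e
      · rw [e, hhh]
        exact Or.inl rfl
      · exact Or.inr (hT1 _ e)
    · rw [Finset.mem_insert]
      push Not
      exact ⟨hh0.symm, fun hc => hT2 _ hc (by simp [hF])⟩
    · rw [Finset.mem_insert]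
      push Not
      exact ⟨hh1.symm, fun hc => hT2 _ hc (by simp [hF])⟩
    · rw [Finset.mem_insert]
      push Not
      exact ⟨hh2.symm, fun hc => hT2 _ hc (by simp [hF])⟩
    · rw [Finset.card_insert_of_notMem hTh, hT3]

theorem goodE_four {ρ r n : ℕ} (hρ : Even ρ) (hr : 4 * r + 2 ≤ ρ) (hρ6 : 6 ≤ ρ) (hn : 4 ∣ n)
    (hn2 : ρ + 6 ≤ n) : GoodE ρ r n := by
  classical
  obtain ⟨k, rfl⟩ := hn
  obtain ⟨s, hs⟩ := hρ
  have hk : 3 ≤ k := by omega
  have : NeZero (2 * k) := ⟨by omega⟩
  obtain ⟨T, t1, t2, t3, t4, t5⟩ := exists_T (k := k) (z := s - 2) hk (by omega)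
  have hcast : ∀ i : ℕ, 0 < i → i < 2 * k → ((i : ℕ) : ZMod (2 * k)) ≠ 0 := by
    intro i hi hi2
    rw [Ne, ZMod.natCast_eq_zero_iff]
    intro hd
    have := Nat.le_of_dvd hi hd
    omega
  have n1 : (1 : ZMod (2 * k)) ≠ 0 := by exact_mod_cast hcast 1 (by norm_num) (by omega)
  have n2 : (2 : ZMod (2 * k)) ≠ 0 := by exact_mod_cast hcast 2 (by norm_num) (by omega)
  have n3 : (3 : ZMod (2 * k)) ≠ 0 := by exact_mod_cast hcast 3 (by norm_num) (by omega)
  have hSD := caseA (M := 2 * k) (by omega) ρ T t1 t2 t3 t4 (by rw [t5]; omega)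
  have hNW := hSD.double (by omega)
  refine ⟨ZMod (2 * k) × Bool, inferInstance, _, _,
    fun p => (((2 * p.1.val + (if p.2 then 1 else 0) : ℕ) : ZMod (2 * k)), false), hNW, ?_, ?_,
    ?_, ?_⟩
  · simp only [Fintype.card_prod, ZMod.card, Fintype.card_bool]
    ring
  · rintro ⟨⟨e, he⟩, b⟩ ⟨⟨e', he'⟩, b'⟩ hp
    have h1 : ((2 * e + (if b then 1 else 0) : ℕ) : ZMod (2 * k)) =
        ((2 * e' + (if b' then 1 else 0) : ℕ) : ZMod (2 * k)) := congrArg Prod.fst hp
    have h2 := cast_inj_of_lt (by split_ifs <;> omega) (by split_ifs <;> omega) h1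
    cases b <;> cases b' <;> simp at h2 ⊢ <;> omega
  · have key : ∀ a : ZMod (2 * k), dw la (za T) (a, false) (a + 1, false) = 1 := by
      intro a
      have m12 : (1 : ZMod (2 * k)) ≠ 2 := fun h => n1 (by linear_combination -h)
      have e1 : a + 1 - a = 1 := by ring
      have e2 : a - (a + 1) = -1 := by ring
      have e3 : (-1 : ZMod (2 * k)) ≠ 1 := fun h => n2 (by linear_combination -h)
      have e4 : (-1 : ZMod (2 * k)) ≠ 2 := fun h => n3 (by linear_combination -h)
      simp only [dw, la, za, e1, e2, if_neg t3, if_true, if_neg m12, if_neg e3, if_neg e4, sg,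
        Bool.false_eq_true, if_false]
      norm_num
    rintro ⟨e, b⟩
    cases b
    · have := key ((2 * e.val : ℕ) : ZMod (2 * k))
      simpa [flip] using this
    · rw [hNW.symm]
      have := key ((2 * e.val : ℕ) : ZMod (2 * k))
      simpa [flip] using this
  · rintro ⟨e, b⟩
    simp [sg]

/-- Even degrees with an odd divisor. -/
theorem good_div {ρ d n : ℕ} (hρ : Even ρ) (hρ0 : 0 < ρ) (hd : Odd d) (hd3 : 3 ≤ d) (hdv : d ∣ ρ)
    (j : ℕ) (hn : 4 ∣ n) (hn2 : ρ + 6 ≤ n) : Good ρ (n + j * (ρ + d)) := by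
  obtain ⟨r, rfl⟩ := hd
  have h2 : 2 * (2 * r + 1) ∣ ρ := by
    apply Nat.Coprime.mul_dvd_of_dvd_of_dvd _ hρ.two_dvd hdv
    rw [Nat.coprime_two_left]
    exact ⟨r, rfl⟩
  have h3 := Nat.le_of_dvd hρ0 h2
  exact ((goodE_four (r := r) hρ (by omega) (by omega) hn hn2).steps (by omega) (by omega)
    hdv j).good

theorem good_even_deg {ρ d n : ℕ} (hρ : Even ρ) (hρ0 : 0 < ρ) (hd : Odd d) (hd3 : 3 ≤ d)
    (hdv : d ∣ ρ) (hn2 : 4 * ρ + 3 * d + 6 ≤ n) : Good ρ n := by
  have hodd : (ρ + d) % 2 = 1 := by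
    obtain ⟨s, rfl⟩ := hρ
    obtain ⟨r, rfl⟩ := hd
    omega
  obtain ⟨j, hj, hdv4⟩ : ∃ j : ℕ, j ≤ 3 ∧ 4 ∣ (n - j * (ρ + d)) := by
    have h1 : n % 4 = 0 ∨ n % 4 = 1 ∨ n % 4 = 2 ∨ n % 4 = 3 := by omega
    have h2 : (ρ + d) % 4 = 1 ∨ (ρ + d) % 4 = 3 := by omega
    rcases h1 with h1 | h1 | h1 | h1 <;> rcases h2 with h2 | h2
    · exact ⟨0, by omega, by omega⟩
    · exact ⟨0, by omega, by omega⟩
    · exact ⟨1, by omega, by omega⟩
    · exact ⟨3, by omega, by omega⟩
    · exact ⟨2, by omega, by omega⟩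
    · exact ⟨2, by omega, by omega⟩
    · exact ⟨3, by omega, by omega⟩
    · exact ⟨1, by omega, by omega⟩
  have hle : j * (ρ + d) ≤ 3 * (ρ + d) := Nat.mul_le_mul_right _ hj
  have := good_div hρ hρ0 hd hd3 hdv j hdv4 (by omega)
  convert this using 1
  omega

end Pool.Agent.TH296.Nut
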