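import Pool.Agent.TH296.Nut.Double

/-!
The circulant signed digraph on two copies of ZMod M used for odd degrees.
-/

namespace Pool.Agent.TH296.Nut

open Finset

section

variable {M : ℕ} [NeZero M]

/-- Block circulant matrix. -/
noncomputable def circ (f : Bool → Bool → ZMod M → ℝ) (p q : ZMod M × Bool) : ℝ :=
  f p.2 q.2 (q.1 - p.1)

theorem circ_row (f : Bool → Bool → ZMod M → ℝ) (u : ZMod M × Bool → ℝ) (t : ZMod M) (a : Bool) :
    ∑ q, circ f (t, a) q * u q =
      ∑ x, f a false x * u (t + x, false) + ∑ x, f a true x * u (t + x, true) := by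
  rw [sum_db, Finset.sum_add_distrib]
  congr 1
  · rw [← Equiv.sum_comp (Equiv.addLeft t)]
    refine Finset.sum_congr rfl fun x _ => ?_
    simp [circ]
  · rw [← Equiv.sum_comp (Equiv.addLeft t)]
    refine Finset.sum_congr rfl fun x _ => ?_
    simp [circ]

theorem circ_col (f : Bool → Bool → ZMod M → ℝ) (u : ZMod M × Bool → ℝ) (t : ZMod M) (a : Bool) :
    ∑ q, circ f q (t, a) * u q =
      ∑ x, f false a x * u (t - x, false) + ∑ x, f true a x * u (t - x, true) := by
  rw [sum_db, Finset.sum_add_distrib]
  congr 1
  · rw [← Equiv.sum_comp (Equiv.subLeft t)]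
    refine Finset.sum_congr rfl fun x _ => ?_
    simp [circ]
  · rw [← Equiv.sum_comp (Equiv.subLeft t)]
    refine Finset.sum_congr rfl fun x _ => ?_
    simp [circ]

/-- The signed symbol. -/
noncomputable def ell : Bool → Bool → ZMod M → ℝ
  | false, false, x => if x = 1 then 1 else 0
  | false, true, x => if x = 0 then -1 else 0
  | true, false, x => (if x = 1 then -1 else 0) + (if x = 3 then -1 else 0)
  | true, true, x => (if x = 1 then 1 else 0) + (if x = 2 then 1 else 0)

/-- Its entrywise square. -/
noncomputable def ell2 : Bool → Bool → ZMod M → ℝ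
  | false, false, x => if x = 1 then 1 else 0
  | false, true, x => if x = 0 then 1 else 0
  | true, false, x => (if x = 1 then 1 else 0) + (if x = 3 then 1 else 0)
  | true, true, x => (if x = 1 then 1 else 0) + (if x = 2 then 1 else 0)

/-- The symbol of the graph Z. -/
noncomputable def zf (T0 T1 X : Finset (ZMod M)) : Bool → Bool → ZMod M → ℝ
  | false, false, x => if x ∈ T0 then 1 else 0
  | false, true, x => if x ∈ X then 1 else 0
  | true, false, x => if -x ∈ X then 1 else 0
  | true, true, x => if x ∈ T1 then 1 else 0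

omit [NeZero M] in
theorem ne0 (hM : 6 ≤ M) (k : ℕ) (hk : 0 < k) (hk' : k ≤ 5) : ((k : ℕ) : ZMod M) ≠ 0 := by
  rw [Ne, ZMod.natCast_eq_zero_iff]
  intro h
  have := Nat.le_of_dvd hk h
  omega

/-- The kernel vector of the transpose. -/
noncomputable def av (p : ZMod M × Bool) : ℝ := if p.2 then 1 else 2

theorem const_of_step (f : ZMod M → ℝ) (h : ∀ t, f (t + 1) = f t) : ∀ t, f t = f 0 := by
  have h1 : ∀ n : ℕ, f ((n : ℕ) : ZMod M) = f 0 := by
    intro n
    induction n with
    | zero => simp
    | succ n ih =>
      rw [Nat.cast_succ, h, ih]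
  intro t
  have := h1 t.val
  rwa [ZMod.natCast_zmod_val] at this

theorem caseB (hM : 6 ≤ M) (ρ : ℕ) (T0 T1 X : Finset (ZMod M))
    (hs0 : ∀ x, x ∈ T0 → -x ∈ T0) (hs1 : ∀ x, x ∈ T1 → -x ∈ T1)
    (h00 : (0 : ZMod M) ∉ T0) (h01 : (1 : ZMod M) ∉ T0)
    (h10 : (0 : ZMod M) ∉ T1) (h11 : (1 : ZMod M) ∉ T1) (h12 : (2 : ZMod M) ∉ T1)
    (hX0 : (0 : ZMod M) ∉ X) (hX1 : (-1 : ZMod M) ∉ X) (hX3 : (-3 : ZMod M) ∉ X)
    (hc0 : 2 * (T0.card + X.card) + 5 = ρ) (hc1 : 2 * (T1.card + X.card) + 7 = ρ) :
    SD (ZMod M × Bool) ρ (circ ell) (circ (zf T0 T1 X)) av := by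
  have n1 : (1 : ZMod M) ≠ 0 := by exact_mod_cast ne0 hM 1 (by norm_num) (by norm_num)
  have n2 : (2 : ZMod M) ≠ 0 := by exact_mod_cast ne0 hM 2 (by norm_num) (by norm_num)
  have n3 : (3 : ZMod M) ≠ 0 := by exact_mod_cast ne0 hM 3 (by norm_num) (by norm_num)
  have n4 : (4 : ZMod M) ≠ 0 := by exact_mod_cast ne0 hM 4 (by norm_num) (by norm_num)
  have n5 : (5 : ZMod M) ≠ 0 := by exact_mod_cast ne0 hM 5 (by norm_num) (by norm_num)
  have m31 : (3 : ZMod M) ≠ 1 := fun h => n2 (by linear_combination h)
  have m21 : (2 : ZMod M) ≠ 1 := fun h => n1 (by linear_combination h)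
  have m13 : (1 : ZMod M) ≠ 3 := m31.symm
  have m12 : (1 : ZMod M) ≠ 2 := m21.symm
  have hval : ∀ a b (x : ZMod M), ell a b x = 0 ∨ ell a b x = 1 ∨ ell a b x = -1 := by
    intro a b x
    cases a <;> cases b <;> simp only [ell]
    · split_ifs <;> simp
    · split_ifs <;> simp
    · by_cases h1 : x = 1
      · subst h1
        simp [m13]
      · by_cases h2 : x = 3
        · subst h2
          simp [m31]
        · simp [h1, h2]
    · by_cases h1 : x = 1
      · subst h1
        simp [m12]
      · by_cases h2 : x = 2
        · subst h2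
          simp [m21]
        · simp [h1, h2]
  have hsq : ∀ a b (x : ZMod M), (ell a b x) ^ 2 = ell2 a b x := by
    intro a b x
    cases a <;> cases b <;> simp only [ell, ell2]
    · split_ifs <;> simp
    · split_ifs <;> simp
    · by_cases h1 : x = 1
      · subst h1
        simp [m13]
      · by_cases h2 : x = 3
        · subst h2
          simp [m31]
        · simp [h1, h2]
    · by_cases h1 : x = 1
      · subst h1
        simp [m12]
      · by_cases h2 : x = 2
        · subst h2
          simp [m21]
        · simp [h1, h2]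
  have hL2 : ∀ p q : ZMod M × Bool, (circ ell p q) ^ 2 = circ ell2 p q := by
    intro p q
    exact hsq _ _ _
  -- support of ell
  have sff : ∀ x : ZMod M, ell false false x ≠ 0 → x = 1 := by
    intro x hx
    by_contra h
    simp [ell, h] at hx
  have sft : ∀ x : ZMod M, ell false true x ≠ 0 → x = 0 := by
    intro x hx
    by_contra h
    simp [ell, h] at hx
  have stf : ∀ x : ZMod M, ell true false x ≠ 0 → x = 1 ∨ x = 3 := by
    intro x hx
    by_contra h
    push Not at h
    simp [ell, h.1, h.2] at hx
  have stt : ∀ x : ZMod M, ell true true x ≠ 0 → x = 1 ∨ x = 2 := by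
    intro x hx
    by_contra h
    push Not at h
    simp [ell, h.1, h.2] at hx
  refine ⟨?_, ?_, ?_, ?_, ?_, ?_, ?_, ?_, ?_, ?_, ?_, ?_, ?_⟩
  · intro p q
    exact hval _ _ _
  · rintro ⟨t, a⟩
    simp only [circ, sub_self]
    by_contra h
    cases a
    · exact n1 (sff _ h).symm
    · rcases stt _ h with h1 | h1
      · exact n1 h1.symm
      · exact n2 h1.symm
  · rintro ⟨t, a⟩ ⟨s, b⟩ h1
    by_contra h2
    simp only [circ] at h1 h2
    cases a <;> cases b
    · have e1 := sff _ h1
      have e2 := sff _ h2
      exact n2 (by linear_combination -e1 - e2)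
    · have e1 := sft _ h1
      rcases stf _ h2 with e2 | e2
      · exact n1 (by linear_combination -e1 - e2)
      · exact n3 (by linear_combination -e1 - e2)
    · have e2 := sft _ h2
      rcases stf _ h1 with e1 | e1
      · exact n1 (by linear_combination -e1 - e2)
      · exact n3 (by linear_combination -e1 - e2)
    · rcases stt _ h1 with e1 | e1 <;> rcases stt _ h2 with e2 | e2
      · exact n2 (by linear_combination -e1 - e2)
      · exact n3 (by linear_combination -e1 - e2)
      · exact n3 (by linear_combination -e1 - e2)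
      · exact n4 (by linear_combination -e1 - e2)
  · rintro ⟨t, a⟩
    have h1 := circ_row (M := M) ell (fun _ => 1) t a
    simp only [mul_one] at h1
    rw [h1]
    cases a
    · simp [ell]
    · simp [ell, Finset.sum_add_distrib]
  · intro u hu
    have hA : ∀ t, u (t + 1, false) = u (t, true) := by
      intro t
      have h1 := hu (t, false)
      rw [circ_row] at h1
      simp only [ell, ite_mul, one_mul, zero_mul, Finset.sum_ite_eq', Finset.mem_univ, if_true,
        add_zero] at h1
      linarith
    have hB : ∀ t, - u (t + 1, false) - u (t + 3, false) + u (t + 1, true) + u (t + 2, true) = 0 := by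
      intro t
      have h1 := hu (t, true)
      rw [circ_row] at h1
      simp only [ell, add_mul, Finset.sum_add_distrib, ite_mul, one_mul, zero_mul,
        Finset.sum_ite_eq', Finset.mem_univ, if_true] at h1
      linarith
    have hC : ∀ t, u (t + 1, false) = u (t, false) := by
      intro t
      have h1 := hB (t - 1)
      have h2 := hA (t - 1 + 1)
      have h3 := hA (t - 1 + 2)
      have e1 : t - 1 + 1 = t := by ring
      have e2 : t - 1 + 2 = t + 1 := by ring
      have e3 : t - 1 + 3 = t + 2 := by ring
      have e4 : t + 1 + 1 = t + 2 := by ring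
      rw [e1, e2, e3] at h1
      rw [e1] at h2
      rw [e2, e4] at h3
      linarith
    have hD := const_of_step (fun t => u (t, false)) hC
    refine ⟨u (0, false), ?_⟩
    rintro ⟨t, b⟩
    cases b
    · exact hD t
    · rw [← hA t]
      exact hD (t + 1)
  · rintro ⟨t, a⟩
    rw [circ_col]
    cases a
    · simp [ell, av, Finset.sum_add_distrib]
      norm_num
    · simp [ell, av, Finset.sum_add_distrib]
      norm_num
  · intro d hd
    have hA : ∀ t, d (t - 1, false) - d (t - 1, true) - d (t - 3, true) = 0 := by
      intro t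
      have h1 := hd (t, false)
      rw [circ_col] at h1
      simp only [ell, add_mul, Finset.sum_add_distrib, ite_mul, one_mul, zero_mul,
        Finset.sum_ite_eq', Finset.mem_univ, if_true] at h1
      linarith
    have hB : ∀ t, - d (t, false) + d (t - 1, true) + d (t - 2, true) = 0 := by
      intro t
      have h1 := hd (t, true)
      rw [circ_col] at h1
      simp only [ell, add_mul, Finset.sum_add_distrib, ite_mul, one_mul, zero_mul,
        Finset.sum_ite_eq', Finset.mem_univ, if_true, sub_zero] at h1
      linarith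
    have hC : ∀ t, d (t + 1, true) = d (t, true) := by
      intro t
      have h1 := hA (t + 2)
      have h2 := hB (t + 1)
      have e1 : t + 2 - 1 = t + 1 := by ring
      have e2 : t + 2 - 3 = t - 1 := by ring
      have e3 : t + 1 - 1 = t := by ring
      have e4 : t + 1 - 2 = t - 1 := by ring
      rw [e1, e2] at h1
      rw [e3, e4] at h2
      linarith
    have hD := const_of_step (fun t => d (t, true)) hC
    refine ⟨d (0, true), ?_⟩
    rintro ⟨t, b⟩
    cases b
    · have h1 := hB t
      have h2 : d (t - 1, true) = d (0, true) := hD (t - 1)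
      have h3 : d (t - 2, true) = d (0, true) := hD (t - 2)
      simp only [av]
      norm_num
      linarith
    · simp only [av]
      norm_num
      exact hD t
  · rintro ⟨t, a⟩
    cases a <;> simp [av]
  · rintro ⟨t, a⟩ ⟨s, b⟩
    simp only [circ]
    cases a <;> cases b <;> simp only [zf] <;> split_ifs <;> simp
  · rintro ⟨t, a⟩ ⟨s, b⟩
    simp only [circ]
    have e : t - s = -(s - t) := by ring
    cases a <;> cases b <;> simp only [zf]
    · rw [e]
      by_cases h : s - t ∈ T0
      · rw [if_pos h, if_pos (hs0 _ h)]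
      · rw [if_neg h, if_neg]
        intro h2
        have := hs0 _ h2
        rw [neg_neg] at this
        exact h this
    · rw [e, neg_neg]
    · rw [e]
    · rw [e]
      by_cases h : s - t ∈ T1
      · rw [if_pos h, if_pos (hs1 _ h)]
      · rw [if_neg h, if_neg]
        intro h2
        have := hs1 _ h2
        rw [neg_neg] at this
        exact h this
  · rintro ⟨t, a⟩
    simp only [circ, sub_self]
    cases a <;> simp [zf, h00, h10]
  · rintro ⟨t, a⟩ ⟨s, b⟩
    simp only [circ]
    generalize s - t = x
    intro h1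
    by_contra h2
    apply h1
    cases a <;> cases b <;> simp only [zf]
    · rw [sff _ h2, if_neg h01]
    · rw [sft _ h2, if_neg hX0]
    · rcases stf _ h2 with e | e
      · rw [e, if_neg hX1]
      · rw [e, if_neg hX3]
    · rcases stt _ h2 with e | e
      · rw [e, if_neg h11]
      · rw [e, if_neg h12]
  · rintro ⟨t, a⟩
    simp only [hL2]
    have h1 := circ_row (M := M) ell2 (fun _ => 1) t a
    have h2 := circ_col (M := M) ell2 (fun _ => 1) t a
    have h3 := circ_row (M := M) (zf T0 T1 X) (fun _ => 1) t a
    simp only [mul_one] at h1 h2 h3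
    rw [h1, h2, h3]
    have hneg : ∑ x : ZMod M, (if -x ∈ X then (1 : ℝ) else 0) = X.card := by
      rw [← Equiv.sum_comp (Equiv.neg (ZMod M))]
      simp
    have hc0' : 2 * ((T0.card : ℝ) + X.card) + 5 = ρ := by exact_mod_cast hc0
    have hc1' : 2 * ((T1.card : ℝ) + X.card) + 7 = ρ := by exact_mod_cast hc1
    cases a
    · simp [ell2, zf, Finset.sum_add_distrib]
      linarith
    · simp only [zf]
      rw [hneg]
      simp [ell2, Finset.sum_add_distrib]
      linarith

end

end Pool.Agent.TH296.Nut
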