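import Pool.Agent.TH296.Nut.Basic

/-!
The double of a signed digraph.
-/

namespace Pool.Agent.TH296.Nut

open Finset

/-- Sign of a Boolean: false is 1, true is -1. -/
noncomputable def sg (s : Bool) : ℝ := if s then -1 else 1

/-- Hypotheses on a signed digraph L and a graph Z on the same index set. -/
structure SD (I : Type) [Fintype I] (ρ : ℕ) (L Z : I → I → ℝ) (a : I → ℝ) : Prop where
  val : ∀ k l, L k l = 0 ∨ L k l = 1 ∨ L k l = -1
  ld : ∀ k, L k k = 0
  asym : ∀ k l, L k l ≠ 0 → L l k = 0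
  row : ∀ k, ∑ l, L k l = 0
  rker : ∀ u : I → ℝ, (∀ k, ∑ l, L k l * u l = 0) → ∃ c : ℝ, ∀ l, u l = c
  lker : ∀ k, ∑ l, L l k * a l = 0
  luniq : ∀ d : I → ℝ, (∀ k, ∑ l, L l k * d l = 0) → ∃ c : ℝ, ∀ l, d l = c * a l
  anz : ∀ l, a l ≠ 0
  zv : ∀ k l, Z k l = 0 ∨ Z k l = 1
  zs : ∀ k l, Z k l = Z l k
  zd : ∀ k, Z k k = 0
  zl : ∀ k l, Z k l ≠ 0 → L k l = 0
  deg : ∀ k, 2 * ∑ l, Z k l + ∑ l, (L k l) ^ 2 + ∑ l, (L l k) ^ 2 = ρ

/-- Weights of the double. -/
noncomputable def dw {I : Type} (L Z : I → I → ℝ) (p q : I × Bool) : ℝ :=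
  Z p.1 q.1 + ((L p.1 q.1) ^ 2 + sg p.2 * L p.1 q.1) / 2 +
    ((L q.1 p.1) ^ 2 + sg q.2 * L q.1 p.1) / 2

theorem sum_db {I : Type} [Fintype I] (F : I × Bool → ℝ) :
    ∑ z, F z = ∑ l, (F (l, false) + F (l, true)) := by
  rw [Fintype.sum_prod_type]
  refine Finset.sum_congr rfl fun l _ => ?_
  rw [Fintype.sum_bool, add_comm]

theorem SD.double {I : Type} [Fintype I] {ρ : ℕ} {L Z : I → I → ℝ} {a : I → ℝ}
    (h : SD I ρ L Z a) [Nonempty I] (hρ : 0 < ρ) :
    NW (I × Bool) ρ (dw L Z) (fun p => sg p.2 * a p.1) := by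
  have hsg : ∀ s, sg s = 1 ∨ sg s = -1 := by
    intro s
    cases s <;> simp [sg]
  have sgf : sg false = 1 := by simp [sg]
  have sgt : sg true = -1 := by simp [sg]
  have hE : ∀ (y : I × Bool → ℝ) (k : I) (s : Bool),
      ∑ q, dw L Z (k, s) q * y q =
        ∑ l, Z k l * (y (l, false) + y (l, true)) +
        (∑ l, (L k l) ^ 2 * (y (l, false) + y (l, true))) / 2 +
        sg s * (∑ l, L k l * (y (l, false) + y (l, true))) / 2 +
        (∑ l, (L l k) ^ 2 * (y (l, false) + y (l, true))) / 2 +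
        (∑ l, L l k * (y (l, false) - y (l, true))) / 2 := by
    intro y k s
    rw [sum_db, Finset.mul_sum, Finset.sum_div, Finset.sum_div, Finset.sum_div, Finset.sum_div,
      ← Finset.sum_add_distrib, ← Finset.sum_add_distrib, ← Finset.sum_add_distrib,
      ← Finset.sum_add_distrib]
    refine Finset.sum_congr rfl fun l _ => ?_
    simp only [dw, sgf, sgt]
    ring
  have hdeg : ∀ p, ∑ w, dw L Z p w = ρ := by
    rintro ⟨k, s⟩
    have h1 := hE (fun _ => 1) k s
    simp only [mul_one] at h1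
    rw [h1]
    have h2 := h.deg k
    have h3 := h.row k
    simp only [← Finset.sum_mul, h3, sub_self, mul_zero, Finset.sum_const_zero, zero_mul]
    linarith
  have hsymm : ∀ v w, dw L Z v w = dw L Z w v := by
    intro v w
    simp only [dw]
    rw [h.zs v.1 w.1]
    ring
  refine ⟨?_, hsymm, ?_, hdeg, ?_, ?_, ?_⟩
  · intro v w
    simp only [dw]
    have h1 := h.val v.1 w.1
    have h2 := h.val w.1 v.1
    have h3 := h.asym v.1 w.1
    have h4 := h.asym w.1 v.1
    have h5 := h.zl v.1 w.1
    have h6 := h.zl w.1 v.1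
    rw [← h.zs v.1 w.1] at h6
    rcases hsg v.2 with e1 | e1 <;> rcases hsg w.2 with e2 | e2 <;>
      rcases h.zv v.1 w.1 with e3 | e3 <;> rcases h1 with e4 | e4 | e4 <;>
      rcases h2 with e5 | e5 | e5 <;> rw [e3, e4] at h5 <;> rw [e3, e5] at h6 <;>
      rw [e4, e5] at h3 <;> rw [e1, e2, e3, e4, e5] <;>
      first
        | (norm_num; done)
        | (exfalso; norm_num at h3; done)
        | (exfalso; norm_num at h5; done)
        | (exfalso; norm_num at h6; done)
  · intro v
    simp only [dw, h.zd, h.ld]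
    ring
  · intro v
    rcases hsg v.2 with e | e
    · simpa [e] using h.anz v.1
    · simpa [e] using h.anz v.1
  · rintro ⟨k, s⟩
    rw [hE]
    have h1 : ∀ l, sg false * a l + sg true * a l = 0 := by
      intro l
      rw [sgf, sgt]
      ring
    have h2 : ∀ l, L l k * (sg false * a l - sg true * a l) = 2 * (L l k * a l) := by
      intro l
      rw [sgf, sgt]
      ring
    simp only [h1, h2, mul_zero, Finset.sum_const_zero, zero_div, add_zero]
    rw [← Finset.mul_sum, h.lker k]
    ring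
  · intro y hy
    -- the class sums are constant
    obtain ⟨c, hc⟩ := h.rker (fun l => y (l, false) + y (l, true)) (by
      intro k
      have h1 := hy (k, false)
      have h2 := hy (k, true)
      rw [hE] at h1 h2
      rw [sgf] at h1
      rw [sgt] at h2
      linarith)
    -- the total sum vanishes
    have htot : ∑ q, (ρ : ℝ) * y q = 0 := by
      have h1 : ∑ p, ∑ q, dw L Z p q * y q = 0 := Finset.sum_eq_zero fun p _ => hy p
      rw [Finset.sum_comm] at h1
      rw [← h1]
      refine Finset.sum_congr rfl fun q _ => ?_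
      rw [← Finset.sum_mul]
      congr 1
      rw [← hdeg q]
      exact Finset.sum_congr rfl fun p _ => hsymm q p
    rw [sum_db] at htot
    have h2 : ∑ l : I, ((ρ : ℝ) * y (l, false) + (ρ : ℝ) * y (l, true)) =
        (Fintype.card I : ℝ) * (ρ * c) := by
      have : ∀ l : I, (ρ : ℝ) * y (l, false) + (ρ : ℝ) * y (l, true) = ρ * c := by
        intro l
        rw [← mul_add, hc l]
      simp only [this, Finset.sum_const, Finset.card_univ, nsmul_eq_mul]
    rw [h2] at htot
    have hI : (Fintype.card I : ℝ) ≠ 0 := by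
      exact_mod_cast Fintype.card_ne_zero
    have hρ' : (ρ : ℝ) ≠ 0 := by
      exact_mod_cast hρ.ne'
    have hc0 : c = 0 := by
      rcases mul_eq_zero.1 htot with h3 | h3
      · exact absurd h3 hI
      · rcases mul_eq_zero.1 h3 with h4 | h4
        · exact absurd h4 hρ'
        · exact h4
    have hu : ∀ l, y (l, false) + y (l, true) = 0 := fun l => by rw [hc l, hc0]
    obtain ⟨c', hc'⟩ := h.luniq (fun l => y (l, false) - y (l, true)) (by
      intro k
      have h1 := hy (k, false)
      rw [hE] at h1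
      simp only [hu, mul_zero, Finset.sum_const_zero, zero_div, zero_add] at h1
      linarith)
    refine ⟨c' / 2, ?_⟩
    rintro ⟨l, s⟩
    have h3 := hu l
    have h4 : y (l, false) - y (l, true) = c' * a l := hc' l
    cases s
    · simp only [sgf]
      linarith
    · simp only [sgt]
      linarith

end Pool.Agent.TH296.Nut
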