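import Pool.Agent.TH296.Nut.Glue

/-!
The complement of a power of a cycle as a gadget.
-/

namespace Pool.Agent.TH296.Nut

open Finset

section

variable {h : ℕ} [NeZero h]

/-- The window of length 2 r + 1 around 0. -/
def win (h r : ℕ) : Finset (ZMod h) :=
  (Finset.range (2 * r + 1)).image (fun t : ℕ => (t : ZMod h) - (r : ZMod h))

open Classical in
/-- Complement of the r-th power of the cycle. -/
noncomputable def cc (h r : ℕ) (u w : ZMod h) : ℝ :=
  1 - (if w - u ∈ win h r then 1 else 0)

omit [NeZero h] in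
theorem cast_inj_of_lt {a b : ℕ} (ha : a < h) (hb : b < h)
    (hab : (a : ZMod h) = (b : ZMod h)) : a = b := by
  have := (ZMod.natCast_eq_natCast_iff a b h).1 hab
  exact Nat.ModEq.eq_of_lt_of_lt this ha hb

theorem cc_sum {r : ℕ} (hr : 2 * r + 1 ≤ h) (f : ZMod h → ℝ) (u : ZMod h) :
    ∑ w, cc h r u w * f w =
      ∑ w, f w - ∑ t ∈ Finset.range (2 * r + 1), f (u - (r : ZMod h) + (t : ZMod h)) := by
  classical
  have h1 : ∀ w, cc h r u w * f w = f w - if w - u ∈ win h r then f w else 0 := by
    intro w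
    unfold cc
    split_ifs <;> ring
  simp only [h1, Finset.sum_sub_distrib]
  congr 1
  have h2 : ∑ w, (if w - u ∈ win h r then f w else 0) =
      ∑ v, if v ∈ win h r then f (u + v) else 0 := by
    rw [← Equiv.sum_comp (Equiv.addLeft u)]
    refine Finset.sum_congr rfl fun v _ => ?_
    simp
  rw [h2, ← Finset.sum_filter]
  have h3 : Finset.univ.filter (fun v => v ∈ win h r) = win h r := by
    ext v
    simp
  rw [h3, win, Finset.sum_image]
  · refine Finset.sum_congr rfl fun t _ => ?_
    congr 1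
    ring
  · intro a ha b hb hab
    simp only [Finset.coe_range, Set.mem_Iio] at ha hb
    have : (a : ZMod h) = (b : ZMod h) := by
      have h5 : (a : ZMod h) - r = (b : ZMod h) - r := hab
      linear_combination h5
    exact cast_inj_of_lt (by omega) (by omega) this

/-- window sum -/
noncomputable def ws (d : ℕ) (f : ZMod h → ℝ) (v : ZMod h) : ℝ :=
  ∑ t ∈ Finset.range d, f (v + (t : ZMod h))

omit [NeZero h] in
theorem ws_step (d : ℕ) (f : ZMod h → ℝ) (v : ZMod h) :
    ws d f (v + 1) + f v = ws d f v + f (v + (d : ZMod h)) := by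
  unfold ws
  rw [← Finset.sum_range_succ (fun t : ℕ => f (v + (t : ZMod h))) d, Finset.sum_range_succ']
  congr 1
  · refine Finset.sum_congr rfl fun t _ => ?_
    congr 1
    push_cast
    ring
  · simp

theorem ws_total (d : ℕ) (f : ZMod h → ℝ) : ∑ v, ws d f v = d * ∑ v, f v := by
  unfold ws
  rw [Finset.sum_comm]
  have : ∀ t ∈ Finset.range d, ∑ v, f (v + (t : ZMod h)) = ∑ v, f v := by
    intro t _
    exact Equiv.sum_comp (Equiv.addRight (t : ZMod h)) f
  rw [Finset.sum_congr rfl this]
  simp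

theorem const_of_step' (f : ZMod h → ℝ) (hf : ∀ t, f (t + 1) = f t) : ∀ t, f t = f 0 := by
  have h1 : ∀ n : ℕ, f ((n : ℕ) : ZMod h) = f 0 := by
    intro n
    induction n with
    | zero => simp
    | succ n ih =>
      rw [Nat.cast_succ, hf, ih]
  intro t
  have := h1 t.val
  rwa [ZMod.natCast_zmod_val] at this

/-- kernel vectors are periodic with vanishing period sum -/
theorem ker_imp {r ρ : ℕ} (hh : h = ρ + (2 * r + 1)) (hρ : 0 < ρ) (f : ZMod h → ℝ)
    (hf : ∀ u, ∑ w, cc h r u w * f w = 0) :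
    (∀ v, f (v + ((2 * r + 1 : ℕ) : ZMod h)) = f v) ∧
      ∑ t ∈ Finset.range (2 * r + 1), f (t : ZMod h) = 0 := by
  have h1 : ∀ v, ws (2 * r + 1) f v = ∑ w, f w := by
    intro v
    have := hf (v + r)
    rw [cc_sum (by omega)] at this
    have e : v + (r : ZMod h) - r = v := by ring
    rw [e] at this
    unfold ws
    linarith
  have h2 : ∀ v, f (v + ((2 * r + 1 : ℕ) : ZMod h)) = f v := by
    intro v
    have := ws_step (2 * r + 1) f v
    rw [h1, h1] at this
    linarith
  refine ⟨h2, ?_⟩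
  have h3 := ws_total (2 * r + 1) f
  simp only [h1, Finset.sum_const, Finset.card_univ, ZMod.card, nsmul_eq_mul] at h3
  have h4 : (ρ : ℝ) * ∑ w, f w = 0 := by
    have e : (h : ℝ) = ρ + ((2 * r + 1 : ℕ) : ℝ) := by
      rw [hh]
      push_cast
      ring
    rw [e] at h3
    linarith
  have h5 : ∑ w, f w = 0 := by
    rcases mul_eq_zero.1 h4 with h6 | h6
    · exact absurd h6 (by exact_mod_cast hρ.ne')
    · exact h6
  have h7 := h1 0
  unfold ws at h7
  simp only [zero_add] at h7
  rw [h7, h5]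

theorem ker_of {r ρ : ℕ} (hh : h = ρ + (2 * r + 1)) (f : ZMod h → ℝ)
    (h2 : ∀ v, f (v + ((2 * r + 1 : ℕ) : ZMod h)) = f v)
    (h0 : ∑ t ∈ Finset.range (2 * r + 1), f (t : ZMod h) = 0) :
    ∀ u, ∑ w, cc h r u w * f w = 0 := by
  have h1 : ∀ v, ws (2 * r + 1) f (v + 1) = ws (2 * r + 1) f v := by
    intro v
    have := ws_step (2 * r + 1) f v
    rw [h2] at this
    linarith
  have h3 : ∀ v, ws (2 * r + 1) f v = 0 := by
    intro v
    rw [const_of_step' _ h1 v]
    unfold ws
    simp only [zero_add]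
    exact h0
  have h4 := ws_total (2 * r + 1) f
  simp only [h3, Finset.sum_const_zero] at h4
  have h5 : ∑ w, f w = 0 := by
    rcases mul_eq_zero.1 h4.symm with h6 | h6
    · exfalso
      have : ((2 * r + 1 : ℕ) : ℝ) ≠ 0 := by positivity
      exact this h6
    · exact h6
  intro u
  rw [cc_sum (by omega), h5]
  have := h3 (u - r)
  unfold ws at this
  rw [this, sub_zero]

theorem per_mul {d : ℕ} (f : ZMod h → ℝ) (h2 : ∀ v, f (v + (d : ZMod h)) = f v) (q : ℕ)
    (v : ZMod h) : f (v + ((d * q : ℕ) : ZMod h)) = f v := by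
  induction q with
  | zero => simp
  | succ q ih =>
    rw [← ih, ← h2 (v + ((d * q : ℕ) : ZMod h))]
    congr 1
    push_cast
    ring

theorem per_mod {d : ℕ} (f : ZMod h → ℝ) (h2 : ∀ v, f (v + (d : ZMod h)) = f v)
    (v : ZMod h) : f v = f ((v.val % d : ℕ) : ZMod h) := by
  have h1 := per_mul f h2 (v.val / d) ((v.val % d : ℕ) : ZMod h)
  rw [← h1]
  congr 1
  have h3 : v.val % d + d * (v.val / d) = v.val := Nat.mod_add_div _ _
  have h4 : ((v.val : ℕ) : ZMod h) = v := ZMod.natCast_zmod_val v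
  rw [← Nat.cast_add, h3, h4]

/-- Values on residues. -/
noncomputable def gval (r : ℕ) (g : Fin r × Bool → ℝ) (t : ℕ) : ℝ :=
  if ht : t / 2 < r then g (⟨t / 2, ht⟩, decide (t % 2 = 1)) else - ∑ p, g p

/-- A periodic function with prescribed values. -/
noncomputable def gfun (h r : ℕ) (g : Fin r × Bool → ℝ) (v : ZMod h) : ℝ :=
  gval r g (v.val % (2 * r + 1))

/-- The marked points. -/
def jj (h r : ℕ) (p : Fin r × Bool) : ZMod h :=
  ((2 * p.1.val + (if p.2 then 2 * r + 2 else 0) : ℕ) : ZMod h)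

omit [NeZero h] in
theorem gval_sum (r : ℕ) (g : Fin r × Bool → ℝ) :
    ∑ t ∈ Finset.range (2 * r + 1), gval r g t = 0 := by
  rw [Finset.sum_range_succ]
  have h1 : gval r g (2 * r) = - ∑ p, g p := by
    unfold gval
    rw [dif_neg]
    omega
  have h2 : ∑ t ∈ Finset.range (2 * r), gval r g t = ∑ p, g p := by
    rw [sum_db]
    have h3 : ∀ l : Fin r, g (l, false) + g (l, true) =
        gval r g (2 * l.val) + gval r g (2 * l.val + 1) := by
      intro l
      have e1 : (2 * l.val) / 2 = l.val := by omega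
      have e2 : (2 * l.val + 1) / 2 = l.val := by omega
      have e3 : (2 * l.val) % 2 = 0 := by omega
      have e4 : (2 * l.val + 1) % 2 = 1 := by omega
      unfold gval
      rw [dif_pos (by rw [e1]; exact l.2), dif_pos (by rw [e2]; exact l.2)]
      simp only [e1, e2, e3, e4]
      simp
    rw [Finset.sum_congr rfl (fun l _ => h3 l)]
    rw [Fin.sum_univ_eq_sum_range (fun l => gval r g (2 * l) + gval r g (2 * l + 1)) r]
    clear h3 h1
    have key : ∀ n : ℕ, ∑ t ∈ Finset.range (2 * n), gval r g t =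
        ∑ l ∈ Finset.range n, (gval r g (2 * l) + gval r g (2 * l + 1)) := by
      intro n
      induction n with
      | zero => simp
      | succ n ih =>
        rw [Finset.sum_range_succ _ n, ← ih, show 2 * (n + 1) = 2 * n + 1 + 1 by ring,
          Finset.sum_range_succ, Finset.sum_range_succ]
        ring
    exact key r
  rw [h1, h2]
  ring

theorem gfun_cast {r : ℕ} (hd : (2 * r + 1) ∣ h) (g : Fin r × Bool → ℝ) (n : ℕ) :
    gfun h r g (n : ZMod h) = gval r g (n % (2 * r + 1)) := by
  unfold gfun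
  rw [ZMod.val_natCast, Nat.mod_mod_of_dvd _ hd]

theorem gfun_per {r : ℕ} (hd : (2 * r + 1) ∣ h) (g : Fin r × Bool → ℝ) (v : ZMod h) :
    gfun h r g (v + ((2 * r + 1 : ℕ) : ZMod h)) = gfun h r g v := by
  have h4 : ((v.val : ℕ) : ZMod h) = v := ZMod.natCast_zmod_val v
  rw [← h4, ← Nat.cast_add, gfun_cast hd, gfun_cast hd, Nat.add_mod_right]

theorem gfun_sum {r : ℕ} (hd : (2 * r + 1) ∣ h) (g : Fin r × Bool → ℝ) :
    ∑ t ∈ Finset.range (2 * r + 1), gfun h r g (t : ZMod h) = 0 := by
  rw [← gval_sum r g]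
  refine Finset.sum_congr rfl fun t ht => ?_
  rw [gfun_cast hd, Nat.mod_eq_of_lt (Finset.mem_range.1 ht)]

theorem gfun_jj {r : ℕ} (hd : (2 * r + 1) ∣ h) (g : Fin r × Bool → ℝ) (p : Fin r × Bool) :
    gfun h r g (jj h r p) = g p := by
  obtain ⟨⟨e, he⟩, b⟩ := p
  unfold jj
  rw [gfun_cast hd]
  cases b
  · simp only [Bool.false_eq_true, if_false, add_zero]
    rw [Nat.mod_eq_of_lt (by omega)]
    unfold gval
    have e1 : (2 * e) / 2 = e := by omega
    have e3 : (2 * e) % 2 = 0 := by omega
    rw [dif_pos (by rw [e1]; exact he)]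
    simp only [e1, e3]
    simp
  · simp only [if_true]
    have e0 : (2 * e + (2 * r + 2)) % (2 * r + 1) = 2 * e + 1 := by
      rw [show 2 * e + (2 * r + 2) = 2 * e + 1 + (2 * r + 1) by ring, Nat.add_mod_right,
        Nat.mod_eq_of_lt (by omega)]
    rw [e0]
    unfold gval
    have e2 : (2 * e + 1) / 2 = e := by omega
    have e4 : (2 * e + 1) % 2 = 1 := by omega
    rw [dif_pos (by rw [e2]; exact he)]
    simp only [e2, e4]
    simp

theorem win_symm {r : ℕ} {v : ZMod h} (hv : v ∈ win h r) : -v ∈ win h r := by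
  unfold win at hv ⊢
  rw [Finset.mem_image] at hv ⊢
  obtain ⟨t, ht, rfl⟩ := hv
  rw [Finset.mem_range] at ht
  refine ⟨2 * r - t, Finset.mem_range.2 (by omega), ?_⟩
  rw [Nat.cast_sub (by omega)]
  push_cast
  ring

theorem cc_symm (r : ℕ) (u w : ZMod h) : cc h r u w = cc h r w u := by
  classical
  unfold cc
  congr 1
  have : w - u ∈ win h r ↔ u - w ∈ win h r := by
    constructor
    · intro h1
      have := win_symm h1
      rwa [neg_sub] at this
    · intro h1
      have := win_symm h1
      rwa [neg_sub] at this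
  simp only [this]

theorem kg {r ρ : ℕ} (hh : h = ρ + (2 * r + 1)) (hρ : 4 * r + 2 ≤ ρ) (hd : (2 * r + 1) ∣ ρ) :
    KG (ZMod h) (Fin r) ρ (cc h r) (jj h r) := by
  classical
  have hd' : (2 * r + 1) ∣ h := by
    rw [hh]
    exact Dvd.dvd.add hd (dvd_refl _)
  refine ⟨?_, cc_symm r, ?_, ?_, ?_, ?_, ?_, ?_⟩
  · intro v w
    unfold cc
    split_ifs <;> simp
  · intro v
    unfold cc
    rw [if_pos]
    · ring
    · unfold win
      rw [Finset.mem_image]
      exact ⟨r, Finset.mem_range.2 (by omega), by simp⟩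
  · intro v
    have h1 := cc_sum (h := h) (r := r) (by omega) (fun _ => 1) v
    simp only [mul_one] at h1
    rw [h1]
    simp only [Finset.sum_const, Finset.card_univ, ZMod.card, Finset.card_range, nsmul_eq_mul,
      mul_one]
    rw [hh]
    push_cast
    ring
  · rintro ⟨⟨e, he⟩, b⟩ ⟨⟨e', he'⟩, b'⟩ hjj
    unfold jj at hjj
    simp only at hjj
    have h1 := cast_inj_of_lt (h := h) (by split_ifs <;> omega) (by split_ifs <;> omega) hjj
    cases b <;> cases b' <;> simp at h1 ⊢ <;> omega
  · have key : ∀ e : Fin r, cc h r (jj h r (e, false)) (jj h r (e, true)) = 1 := by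
      intro e
      unfold cc
      rw [if_neg, sub_zero]
      intro hw
      unfold win at hw
      rw [Finset.mem_image] at hw
      obtain ⟨t, ht, h2⟩ := hw
      rw [Finset.mem_range] at ht
      unfold jj at h2
      simp only [if_true, Bool.false_eq_true, if_false, add_zero] at h2
      have h3 : ((3 * r + 2 - t : ℕ) : ZMod h) = 0 := by
        rw [Nat.cast_sub (by omega)]
        push_cast at h2 ⊢
        linear_combination -h2
      rw [ZMod.natCast_eq_zero_iff] at h3
      have := Nat.le_of_dvd (by omega) h3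
      omega
    rintro ⟨e, b⟩
    cases b
    · exact key e
    · rw [cc_symm]
      exact key e
  · intro f hf hfj u
    obtain ⟨h1, h2⟩ := ker_imp hh (by omega) f hf
    have h3 : ∀ e, e < r → f ((2 * e : ℕ) : ZMod h) = 0 := by
      intro e he
      have := hfj (⟨e, he⟩, false)
      simpa [jj] using this
    have h4 : ∀ e, e < r → f ((2 * e + 1 : ℕ) : ZMod h) = 0 := by
      intro e he
      have := hfj (⟨e, he⟩, true)
      rw [← h1]
      rw [← this]
      congr 1
      unfold jj
      simp only [if_true]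
      push_cast
      ring
    have h5 : ∀ t, t < 2 * r → f ((t : ℕ) : ZMod h) = 0 := by
      intro t ht
      rcases Nat.even_or_odd' t with ⟨e, rfl | rfl⟩
      · exact h3 e (by omega)
      · exact h4 e (by omega)
    have h6 : f ((2 * r : ℕ) : ZMod h) = 0 := by
      rw [Finset.sum_range_succ] at h2
      rw [Finset.sum_eq_zero (fun t ht => h5 t (Finset.mem_range.1 ht)), zero_add] at h2
      exact h2
    rw [per_mod f h1 u]
    have h7 : u.val % (2 * r + 1) < 2 * r + 1 := Nat.mod_lt _ (by omega)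
    rcases Nat.lt_or_ge (u.val % (2 * r + 1)) (2 * r) with h8 | h8
    · exact h5 _ h8
    · have : u.val % (2 * r + 1) = 2 * r := by omega
      rw [this]
      exact h6
  · intro g
    exact ⟨gfun h r g, ker_of hh _ (gfun_per hd' g) (gfun_sum hd' g), gfun_jj hd' g⟩

end

end Pool.Agent.TH296.Nut
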