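import Pool.Agent.TH296.Nut.Double

/-!
Gluing a regular nut graph and a regular graph with a larger kernel along several edges.
-/

namespace Pool.Agent.TH296.Nut

open Finset

/-- The other end of an edge. -/
def flip {E : Type} (p : E × Bool) : E × Bool := (p.1, !p.2)

theorem flip_flip {E : Type} (p : E × Bool) : flip (flip p) = p := by
  simp [flip]

open Classical in
/-- Weights of one side after the edges i p, i (flip p) are removed. -/
noncomputable def cut {V E : Type} (W : V → V → ℝ) (i : E × Bool → V) (a b : V) : ℝ :=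
  if ∃ p, a = i p ∧ b = i (flip p) then 0 else W a b

open Classical in
/-- Weights of the cross edges i p, j p. -/
noncomputable def crs {V U E : Type} (i : E × Bool → V) (j : E × Bool → U) (a : V) (b : U) : ℝ :=
  if ∃ p, a = i p ∧ b = j p then 1 else 0

/-- Weights of the glued graph. -/
noncomputable def gw {V U E : Type} (W : V → V → ℝ) (W' : U → U → ℝ) (i : E × Bool → V)
    (j : E × Bool → U) : (V ⊕ U) → (V ⊕ U) → ℝ
  | .inl a, .inl b => cut W i a b
  | .inr a, .inr b => cut W' j a b
  | .inl a, .inr b => crs i j a b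
  | .inr b, .inl a => crs i j a b

section

variable {V U E : Type} [Fintype V] [Fintype U] {W : V → V → ℝ}
  {i : E × Bool → V} {j : E × Bool → U}

theorem cut_in (hi : Function.Injective i) (hW : ∀ p, W (i p) (i (flip p)) = 1)
    (p : E × Bool) (y : V → ℝ) :
    ∑ b, cut W i (i p) b * y b = ∑ b, W (i p) b * y b - y (i (flip p)) := by
  classical
  have h1 : ∀ b, cut W i (i p) b * y b =
      W (i p) b * y b - if b = i (flip p) then y b else 0 := by
    intro b
    unfold cut
    by_cases hb : b = i (flip p)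
    · rw [if_pos ⟨p, rfl, hb⟩, if_pos hb, hb, hW p]
      ring
    · rw [if_neg, if_neg hb, sub_zero]
      rintro ⟨q, hq1, hq2⟩
      rw [← hi hq1] at hq2
      exact hb hq2
  simp only [h1, Finset.sum_sub_distrib, Finset.sum_ite_eq', Finset.mem_univ, if_true]

theorem cut_out {a : V} (ha : ∀ p, a ≠ i p) (y : V → ℝ) :
    ∑ b, cut W i a b * y b = ∑ b, W a b * y b := by
  refine Finset.sum_congr rfl fun b _ => ?_
  unfold cut
  rw [if_neg]
  rintro ⟨q, hq1, _⟩
  exact ha q hq1

theorem crs_in (hi : Function.Injective i) (p : E × Bool) (y : U → ℝ) :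
    ∑ b, crs i j (i p) b * y b = y (j p) := by
  classical
  have h1 : ∀ b, crs i j (i p) b * y b = if b = j p then y b else 0 := by
    intro b
    unfold crs
    by_cases hb : b = j p
    · rw [if_pos ⟨p, rfl, hb⟩, if_pos hb, one_mul]
    · rw [if_neg, if_neg hb, zero_mul]
      rintro ⟨q, hq1, hq2⟩
      rw [← hi hq1] at hq2
      exact hb hq2
  simp only [h1, Finset.sum_ite_eq', Finset.mem_univ, if_true]

theorem crs_out {a : V} (ha : ∀ p, a ≠ i p) (y : U → ℝ) :
    ∑ b, crs i j a b * y b = 0 := by
  refine Finset.sum_eq_zero fun b _ => ?_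
  unfold crs
  rw [if_neg, zero_mul]
  rintro ⟨q, hq1, _⟩
  exact ha q hq1

theorem crs_in' (hj : Function.Injective j) (p : E × Bool) (y : V → ℝ) :
    ∑ a, crs i j a (j p) * y a = y (i p) := by
  classical
  have h1 : ∀ a, crs i j a (j p) * y a = if a = i p then y a else 0 := by
    intro a
    unfold crs
    by_cases hb : a = i p
    · rw [if_pos ⟨p, hb, rfl⟩, if_pos hb, one_mul]
    · rw [if_neg, if_neg hb, zero_mul]
      rintro ⟨q, hq1, hq2⟩
      rw [← hj hq2] at hq1
      exact hb hq1
  simp only [h1, Finset.sum_ite_eq', Finset.mem_univ, if_true]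

theorem crs_out' {b : U} (hb : ∀ p, b ≠ j p) (y : V → ℝ) :
    ∑ a, crs i j a b * y a = 0 := by
  refine Finset.sum_eq_zero fun a _ => ?_
  unfold crs
  rw [if_neg, zero_mul]
  rintro ⟨q, _, hq1⟩
  exact hb q hq1

theorem cut_symm (hs : ∀ a b, W a b = W b a) (a b : V) : cut W i a b = cut W i b a := by
  classical
  unfold cut
  have : (∃ p, a = i p ∧ b = i (flip p)) ↔ (∃ p, b = i p ∧ a = i (flip p)) := by
    constructor
    · rintro ⟨p, h1, h2⟩
      exact ⟨flip p, h2, by rw [flip_flip]; exact h1⟩
    · rintro ⟨p, h1, h2⟩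
      exact ⟨flip p, h2, by rw [flip_flip]; exact h1⟩
  by_cases h : ∃ p, a = i p ∧ b = i (flip p)
  · rw [if_pos h, if_pos (this.1 h)]
  · rw [if_neg h, if_neg (fun hc => h (this.2 hc)), hs]

theorem cut_zo (hz : ∀ a b, W a b = 0 ∨ W a b = 1) (a b : V) :
    cut W i a b = 0 ∨ cut W i a b = 1 := by
  classical
  unfold cut
  split_ifs
  · exact Or.inl rfl
  · exact hz a b

theorem cut_diag (hd : ∀ a, W a a = 0) (a : V) : cut W i a a = 0 := by
  classical
  unfold cut
  split_ifs
  · rfl
  · exact hd a

theorem crs_zo (a : V) (b : U) : crs i j a b = 0 ∨ crs i j a b = 1 := by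
  classical
  unfold crs
  split_ifs
  · exact Or.inr rfl
  · exact Or.inl rfl

end

/-- A regular graph whose kernel is parametrised by the values on the points j p. -/
structure KG (U E : Type) [Fintype U] (ρ : ℕ) (W' : U → U → ℝ) (j : E × Bool → U) : Prop where
  zo : ∀ v w, W' v w = 0 ∨ W' v w = 1
  symm : ∀ v w, W' v w = W' w v
  diag : ∀ v, W' v v = 0
  deg : ∀ v, ∑ w, W' v w = ρ
  inj : Function.Injective j
  adj : ∀ p, W' (j p) (j (flip p)) = 1
  faith : ∀ f : U → ℝ, (∀ u, ∑ w, W' u w * f w = 0) → (∀ p, f (j p) = 0) → ∀ u, f u = 0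
  full : ∀ g : E × Bool → ℝ, ∃ f : U → ℝ, (∀ u, ∑ w, W' u w * f w = 0) ∧ ∀ p, f (j p) = g p

theorem NW.glue {V U E : Type} [Fintype V] [Fintype U] [Fintype E] {ρ : ℕ} {W : V → V → ℝ}
    {x : V → ℝ} {W' : U → U → ℝ} {i : E × Bool → V} {j : E × Bool → U}
    (h : NW V ρ W x) (hi : Function.Injective i) (hWi : ∀ p, W (i p) (i (flip p)) = 1)
    (k : KG U E ρ W' j) (f0 : U → ℝ) (hf0 : ∀ u, ∑ w, W' u w * f0 w = 0)
    (hf1 : ∀ p, f0 (j p) = x (i (flip p))) (hf2 : ∀ u, f0 u ≠ 0) :
    NW (V ⊕ U) ρ (gw W W' i j) (Sum.elim x f0) := by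
  classical
  -- kernel sums
  have e1 : ∀ (y : V ⊕ U → ℝ) (p : E × Bool), ∑ z, gw W W' i j (.inl (i p)) z * y z =
      ∑ b, W (i p) b * y (.inl b) - y (.inl (i (flip p))) + y (.inr (j p)) := by
    intro y p
    rw [Fintype.sum_sum_type]
    simp only [gw]
    rw [cut_in hi hWi p (fun b => y (.inl b)), crs_in hi p (fun b => y (.inr b))]
  have e2 : ∀ (y : V ⊕ U → ℝ) (a : V), (∀ p, a ≠ i p) → ∑ z, gw W W' i j (.inl a) z * y z =
      ∑ b, W a b * y (.inl b) := by
    intro y a ha
    rw [Fintype.sum_sum_type]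
    simp only [gw]
    rw [cut_out ha (fun b => y (.inl b)), crs_out ha (fun b => y (.inr b)), add_zero]
  have e3 : ∀ (y : V ⊕ U → ℝ) (p : E × Bool), ∑ z, gw W W' i j (.inr (j p)) z * y z =
      ∑ b, W' (j p) b * y (.inr b) - y (.inr (j (flip p))) + y (.inl (i p)) := by
    intro y p
    rw [Fintype.sum_sum_type]
    simp only [gw]
    rw [cut_in k.inj k.adj p (fun b => y (.inr b)), crs_in' k.inj p (fun b => y (.inl b))]
    ring
  have e4 : ∀ (y : V ⊕ U → ℝ) (a : U), (∀ p, a ≠ j p) → ∑ z, gw W W' i j (.inr a) z * y z =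
      ∑ b, W' a b * y (.inr b) := by
    intro y a ha
    rw [Fintype.sum_sum_type]
    simp only [gw]
    rw [cut_out ha (fun b => y (.inr b)), crs_out' ha (fun b => y (.inl b)), zero_add]
  refine ⟨?_, ?_, ?_, ?_, ?_, ?_, ?_⟩
  · rintro (a | a) (b | b) <;> simp only [gw]
    · exact cut_zo h.zo a b
    · exact crs_zo a b
    · exact crs_zo b a
    · exact cut_zo k.zo a b
  · rintro (a | a) (b | b) <;> simp only [gw]
    · exact cut_symm h.symm a b
    · exact cut_symm k.symm a b
  · rintro (a | a) <;> simp only [gw]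
    · exact cut_diag h.diag a
    · exact cut_diag k.diag a
  · rintro (a | a)
    · by_cases ha : ∀ p, a ≠ i p
      · have h1 := e2 (fun _ => 1) a ha
        simp only [mul_one] at h1
        rw [h1, h.deg]
      · push Not at ha
        obtain ⟨p, rfl⟩ := ha
        have h1 := e1 (fun _ => 1) p
        simp only [mul_one] at h1
        rw [h1, h.deg]
        ring
    · by_cases ha : ∀ p, a ≠ j p
      · have h1 := e4 (fun _ => 1) a ha
        simp only [mul_one] at h1
        rw [h1, k.deg]
      · push Not at ha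
        obtain ⟨p, rfl⟩ := ha
        have h1 := e3 (fun _ => 1) p
        simp only [mul_one] at h1
        rw [h1, k.deg]
        ring
  · rintro (a | a)
    · exact h.nz a
    · exact hf2 a
  · rintro (a | a)
    · by_cases ha : ∀ p, a ≠ i p
      · rw [e2 _ a ha]
        exact h.ker a
      · push Not at ha
        obtain ⟨p, rfl⟩ := ha
        rw [e1]
        simp only [Sum.elim_inl, Sum.elim_inr]
        rw [h.ker, hf1]
        ring
    · by_cases ha : ∀ p, a ≠ j p
      · rw [e4 _ a ha]
        exact hf0 a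
      · push Not at ha
        obtain ⟨p, rfl⟩ := ha
        rw [e3]
        simp only [Sum.elim_inl, Sum.elim_inr]
        rw [hf0, hf1, flip_flip]
        ring
  · intro y hy
    have g1 : ∀ p, ∑ b, W (i p) b * y (.inl b) = y (.inl (i (flip p))) - y (.inr (j p)) := by
      intro p
      have h1 := hy (.inl (i p))
      rw [e1] at h1
      linarith
    have g3 : ∀ p, ∑ b, W' (j p) b * y (.inr b) = y (.inr (j (flip p))) - y (.inl (i p)) := by
      intro p
      have h1 := hy (.inr (j p))
      rw [e3] at h1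
      linarith
    have g4 : ∀ a, (∀ p, a ≠ j p) → ∑ b, W' a b * y (.inr b) = 0 := by
      intro a ha
      rw [← e4 y a ha]
      exact hy _
    obtain ⟨f, hf, hfj⟩ := k.full (fun p => y (.inr (j (flip p))) - y (.inl (i p)))
    have hpair : ∑ u, f u * ∑ b, W' u b * y (.inr b) = 0 := by
      have h1 : ∑ u, f u * ∑ b, W' u b * y (.inr b) = ∑ b, y (.inr b) * ∑ u, W' b u * f u := by
        simp only [Finset.mul_sum]
        rw [Finset.sum_comm]
        refine Finset.sum_congr rfl fun b _ => Finset.sum_congr rfl fun u _ => ?_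
        rw [k.symm u b]
        ring
      rw [h1]
      refine Finset.sum_eq_zero fun b _ => ?_
      rw [hf b, mul_zero]
    have hsq : ∑ p : E × Bool, (y (.inr (j (flip p))) - y (.inl (i p))) ^ 2 = 0 := by
      rw [← hpair]
      refine Fintype.sum_of_injective j k.inj _ _ ?_ ?_
      · intro u hu
        rw [g4 u (fun p hp => hu ⟨p, hp.symm⟩), mul_zero]
      · intro p
        rw [g3 p, hfj p]
        ring
    have hz : ∀ p, y (.inr (j (flip p))) = y (.inl (i p)) := by
      intro p
      have h1 := (Finset.sum_eq_zero_iff_of_nonneg (fun q _ => sq_nonneg _)).1 hsq p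
        (Finset.mem_univ _)
      have h2 := pow_eq_zero_iff (two_ne_zero) |>.1 h1
      linarith
    obtain ⟨c, hc⟩ := h.uniq (fun v => y (.inl v)) (by
      intro a
      by_cases ha : ∀ p, a ≠ i p
      · rw [← e2 y a ha]
        exact hy _
      · push Not at ha
        obtain ⟨p, rfl⟩ := ha
        rw [g1 p]
        have h1 := hz (flip p)
        rw [flip_flip] at h1
        rw [h1]
        ring)
    have hU := k.faith (fun u => y (.inr u) - c * f0 u) (by
      intro u
      have h1 : ∑ w, W' u w * (y (.inr w) - c * f0 w) =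
          ∑ w, W' u w * y (.inr w) - c * ∑ w, W' u w * f0 w := by
        rw [Finset.mul_sum, ← Finset.sum_sub_distrib]
        refine Finset.sum_congr rfl fun w _ => ?_
        ring
      rw [h1, hf0, mul_zero, sub_zero]
      by_cases ha : ∀ p, u ≠ j p
      · exact g4 u ha
      · push Not at ha
        obtain ⟨p, rfl⟩ := ha
        rw [g3 p, hz p, sub_self]) (by
      intro p
      have h1 := hz (flip p)
      rw [flip_flip] at h1
      have h2 : y (.inl (i (flip p))) = c * x (i (flip p)) := hc _
      simp only [h1, hf1, h2, sub_self])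
    refine ⟨c, ?_⟩
    rintro (a | a)
    · exact hc a
    · have := hU a
      simp only [Sum.elim_inr]
      linarith

end Pool.Agent.TH296.Nut
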