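import Pool.Agent.TH296.Nut.CaseA

/-!
The join of two regular nut graphs as a gadget.
-/

namespace Pool.Agent.TH296.Nut

open Finset

/-- Weights of the join. -/
def jw {V U : Type} (W : V → V → ℝ) (W' : U → U → ℝ) : (V ⊕ U) → (V ⊕ U) → ℝ
  | .inl a, .inl b => W a b
  | .inr a, .inr b => W' a b
  | .inl _, .inr _ => 1
  | .inr _, .inl _ => 1

/-- The two marked points. -/
def jp {V U : Type} (s : V) (t : U) (p : Fin 1 × Bool) : V ⊕ U :=
  if p.2 then .inr t else .inl s

theorem tot {V : Type} [Fintype V] {ρ : ℕ} {W : V → V → ℝ} {x : V → ℝ} (h : NW V ρ W x)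
    (y : V → ℝ) : ∑ a, ∑ b, W a b * y b = ρ * ∑ b, y b := by
  rw [Finset.sum_comm, Finset.mul_sum]
  refine Finset.sum_congr rfl fun b _ => ?_
  rw [← Finset.sum_mul]
  congr 1
  rw [← h.deg b]
  exact Finset.sum_congr rfl fun a _ => h.symm a b

theorem sum0 {V : Type} [Fintype V] {ρ : ℕ} {W : V → V → ℝ} {x : V → ℝ} (h : NW V ρ W x)
    (hρ : 0 < ρ) : ∑ b, x b = 0 := by
  have := tot h x
  simp only [h.ker, Finset.sum_const_zero] at this
  rcases mul_eq_zero.1 this.symm with h1 | h1
  · exact absurd h1 (by exact_mod_cast hρ.ne')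
  · exact h1

theorem join_kg {V U : Type} [Fintype V] [Fintype U] {ρ1 ρ2 : ℕ} {W : V → V → ℝ} {x : V → ℝ}
    {W' : U → U → ℝ} {g : U → ℝ} (h1 : NW V ρ1 W x) (h2 : NW U ρ2 W' g)
    {ρ : ℕ} (e1 : ρ1 + Fintype.card U = ρ) (e2 : ρ2 + Fintype.card V = ρ)
    (l1 : ρ1 < Fintype.card V) (l2 : ρ2 < Fintype.card U) (r1 : 0 < ρ1) (r2 : 0 < ρ2)
    (s : V) (t : U) :
    KG (V ⊕ U) (Fin 1) ρ (jw W W') (jp s t) := by
  classical
  have hsl : ∀ (y : V ⊕ U → ℝ) (a : V), ∑ z, jw W W' (.inl a) z * y z =
      ∑ b, W a b * y (.inl b) + ∑ b, y (.inr b) := by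
    intro y a
    rw [Fintype.sum_sum_type]
    simp only [jw, one_mul]
  have hsr : ∀ (y : V ⊕ U → ℝ) (a : U), ∑ z, jw W W' (.inr a) z * y z =
      ∑ b, y (.inl b) + ∑ b, W' a b * y (.inr b) := by
    intro y a
    rw [Fintype.sum_sum_type]
    simp only [jw, one_mul]
  refine ⟨?_, ?_, ?_, ?_, ?_, ?_, ?_, ?_⟩
  · rintro (a | a) (b | b) <;> simp only [jw]
    · exact h1.zo a b
    · exact Or.inr trivial
    · exact Or.inr trivial
    · exact h2.zo a b
  · rintro (a | a) (b | b) <;> simp only [jw]
    · exact h1.symm a b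
    · exact h2.symm a b
  · rintro (a | a) <;> simp only [jw]
    · exact h1.diag a
    · exact h2.diag a
  · rintro (a | a)
    · have := hsl (fun _ => 1) a
      simp only [mul_one] at this
      rw [this, h1.deg]
      simp only [Finset.sum_const, Finset.card_univ, nsmul_eq_mul, mul_one]
      exact_mod_cast e1
    · have := hsr (fun _ => 1) a
      simp only [mul_one] at this
      rw [this, h2.deg]
      simp only [Finset.sum_const, Finset.card_univ, nsmul_eq_mul, mul_one]
      rw [add_comm]
      exact_mod_cast e2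
  · rintro ⟨e, b⟩ ⟨e', b'⟩ h
    have he : e = e' := Subsingleton.elim _ _
    cases b <;> cases b' <;> simp [jp] at h ⊢ <;> exact he
  · rintro ⟨e, b⟩
    cases b <;> simp [jp, flip, jw]
  · intro f hf hfj
    have q1 : ∑ b, (ρ1 : ℝ) * f (.inl b) + Fintype.card V * ∑ b, f (.inr b) = 0 := by
      have : ∑ a : V, ∑ z, jw W W' (.inl a) z * f z = 0 := Finset.sum_eq_zero fun a _ => hf _
      simp only [hsl, Finset.sum_add_distrib] at this
      rw [tot h1 (fun b => f (.inl b))] at this
      simp only [Finset.sum_const, Finset.card_univ, nsmul_eq_mul] at this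
      rw [← Finset.mul_sum]
      exact this
    have q2 : Fintype.card U * ∑ b, f (.inl b) + ∑ b, (ρ2 : ℝ) * f (.inr b) = 0 := by
      have : ∑ a : U, ∑ z, jw W W' (.inr a) z * f z = 0 := Finset.sum_eq_zero fun a _ => hf _
      simp only [hsr, Finset.sum_add_distrib] at this
      rw [tot h2 (fun b => f (.inr b))] at this
      simp only [Finset.sum_const, Finset.card_univ, nsmul_eq_mul] at this
      rw [← Finset.mul_sum]
      exact this
    rw [← Finset.mul_sum] at q1 q2
    set S1 := ∑ b, f (.inl b) with hS1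
    set S2 := ∑ b, f (.inr b) with hS2
    have c1 : (ρ1 : ℝ) < Fintype.card V := by exact_mod_cast l1
    have c2 : (ρ2 : ℝ) < Fintype.card U := by exact_mod_cast l2
    have p1 : (0 : ℝ) ≤ ρ1 := by positivity
    have p2 : (0 : ℝ) ≤ ρ2 := by positivity
    have hdet : (ρ1 : ℝ) * ρ2 < Fintype.card V * Fintype.card U := by nlinarith
    have z1 : S1 = 0 := by
      have : ((ρ1 : ℝ) * ρ2 - Fintype.card V * Fintype.card U) * S1 = 0 := by
        linear_combination (ρ2 : ℝ) * q1 - (Fintype.card V : ℝ) * q2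
      rcases mul_eq_zero.1 this with h | h
      · linarith
      · exact h
    have z2 : S2 = 0 := by
      have : ((ρ1 : ℝ) * ρ2 - Fintype.card V * Fintype.card U) * S2 = 0 := by
        linear_combination (ρ1 : ℝ) * q2 - (Fintype.card U : ℝ) * q1
      rcases mul_eq_zero.1 this with h | h
      · linarith
      · exact h
    obtain ⟨c, hc⟩ := h1.uniq (fun b => f (.inl b)) (by
      intro a
      have := hf (.inl a)
      rw [hsl, ← hS2, z2, add_zero] at this
      exact this)
    obtain ⟨c', hc'⟩ := h2.uniq (fun b => f (.inr b)) (by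
      intro a
      have := hf (.inr a)
      rw [hsr, ← hS1, z1, zero_add] at this
      exact this)
    have k1 : f (.inl s) = 0 := by simpa [jp] using hfj (0, false)
    have k2 : f (.inr t) = 0 := by simpa [jp] using hfj (0, true)
    have m1 : c = 0 := by
      have := hc s
      simp only [k1] at this
      rcases mul_eq_zero.1 this.symm with h | h
      · exact h
      · exact absurd h (h1.nz s)
    have m2 : c' = 0 := by
      have := hc' t
      simp only [k2] at this
      rcases mul_eq_zero.1 this.symm with h | h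
      · exact h
      · exact absurd h (h2.nz t)
    rintro (a | a)
    · have := hc a
      simp only [m1, zero_mul] at this
      exact this
    · have := hc' a
      simp only [m2, zero_mul] at this
      exact this
  · intro q
    have v1 : ∑ b, x b = 0 := sum0 h1 r1
    have v2 : ∑ b, g b = 0 := sum0 h2 r2
    refine ⟨Sum.elim (fun v => q (0, false) / x s * x v) (fun u => q (0, true) / g t * g u),
      ?_, ?_⟩
    · rintro (a | a)
      · rw [hsl]
        simp only [Sum.elim_inl, Sum.elim_inr]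
        rw [← Finset.mul_sum, v2, mul_zero, add_zero]
        have : ∑ b, W a b * (q (0, false) / x s * x b) = q (0, false) / x s * ∑ b, W a b * x b := by
          rw [Finset.mul_sum]
          exact Finset.sum_congr rfl fun b _ => by ring
        rw [this, h1.ker, mul_zero]
      · rw [hsr]
        simp only [Sum.elim_inl, Sum.elim_inr]
        rw [← Finset.mul_sum, v1, mul_zero, zero_add]
        have : ∑ b, W' a b * (q (0, true) / g t * g b) = q (0, true) / g t * ∑ b, W' a b * g b := by
          rw [Finset.mul_sum]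
          exact Finset.sum_congr rfl fun b _ => by ring
        rw [this, h2.ker, mul_zero]
    · rintro ⟨e, b⟩
      have he : e = 0 := Subsingleton.elim _ _
      subst he
      have w1 := h1.nz s
      have w2 := h2.nz t
      cases b
      · simp only [jp, Bool.false_eq_true, if_false, Sum.elim_inl]
        field_simp
      · simp only [jp, if_true, Sum.elim_inr]
        field_simp

/-- Gluing a general gadget onto marked edges. -/
theorem GoodE.step_of {ρ r n : ℕ} (h : GoodE ρ r n) {U : Type} [Fintype U] {W' : U → U → ℝ}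
    {j : Fin r × Bool → U} (k : KG U (Fin r) ρ W' j) (f0 : U → ℝ)
    (hf0 : ∀ u, ∑ w, W' u w * f0 w = 0) (hf1 : ∀ p, f0 (j p) = 1) (hf2 : ∀ u, f0 u ≠ 0) :
    GoodE ρ r (n + Fintype.card U) := by
  classical
  obtain ⟨V, iV, W, x, i, h1, rfl, h3, h4, h5⟩ := h
  have hg := h1.glue h3 h4 k f0 hf0 (by intro p; rw [hf1, h5]) hf2
  refine ⟨V ⊕ U, inferInstance, _, _,
    fun p => if p.2 then .inr (j (p.1, false)) else .inl (i (p.1, false)), hg, ?_, ?_, ?_, ?_⟩
  · rw [Fintype.card_sum]
  · rintro ⟨e, b⟩ ⟨e', b'⟩ hp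
    cases b <;> cases b' <;> simp at hp
    · have := h3 hp
      simpa using this
    · have := k.inj hp
      simpa using this
  · have key : ∀ e : Fin r, crs i j (i (e, false)) (j (e, false)) = 1 := by
      intro e
      unfold crs
      rw [if_pos ⟨(e, false), rfl, rfl⟩]
    rintro ⟨e, b⟩
    cases b
    · exact key e
    · exact key e
  · rintro ⟨e, b⟩
    cases b
    · exact h5 _
    · exact hf1 _

theorem GoodE.join {ρ n ρ1 ρ2 n1 n2 : ℕ} (h : GoodE ρ 1 n) (g1 : Good ρ1 n1) (g2 : Good ρ2 n2)
    (r1 : 0 < ρ1) (r2 : 0 < ρ2) (l1 : ρ1 < n1) (l2 : ρ2 < n2) (e1 : ρ1 + n2 = ρ)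
    (e2 : ρ2 + n1 = ρ) : GoodE ρ 1 (n + (n1 + n2)) := by
  obtain ⟨V, iV, W, x, h1, rfl⟩ := g1
  obtain ⟨U, iU, W', g, h2, rfl⟩ := g2
  obtain ⟨s⟩ : Nonempty V := Fintype.card_pos_iff.1 (by omega)
  obtain ⟨t⟩ : Nonempty U := Fintype.card_pos_iff.1 (by omega)
  have k := join_kg h1 h2 e1 e2 l1 l2 r1 r2 s t
  have v1 : ∑ b, x b = 0 := sum0 h1 r1
  have v2 : ∑ b, g b = 0 := sum0 h2 r2
  have w1 := h1.nz s
  have w2 := h2.nz t
  have := h.step_of k (Sum.elim (fun v => 1 / x s * x v) (fun u => 1 / g t * g u)) ?_ ?_ ?_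
  · rwa [Fintype.card_sum] at this
  · rintro (a | a)
    · rw [Fintype.sum_sum_type]
      simp only [Sum.elim_inl, Sum.elim_inr, jw, one_mul]
      rw [← Finset.mul_sum, v2, mul_zero, add_zero]
      have : ∑ b, W a b * (1 / x s * x b) = 1 / x s * ∑ b, W a b * x b := by
        rw [Finset.mul_sum]
        exact Finset.sum_congr rfl fun b _ => by ring
      rw [this, h1.ker, mul_zero]
    · rw [Fintype.sum_sum_type]
      simp only [Sum.elim_inl, Sum.elim_inr, jw, one_mul]
      rw [← Finset.mul_sum, v1, mul_zero, zero_add]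
      have : ∑ b, W' a b * (1 / g t * g b) = 1 / g t * ∑ b, W' a b * g b := by
        rw [Finset.mul_sum]
        exact Finset.sum_congr rfl fun b _ => by ring
      rw [this, h2.ker, mul_zero]
  · rintro ⟨e, b⟩
    cases b
    · simp only [jp, Bool.false_eq_true, if_false, Sum.elim_inl]
      field_simp
    · simp only [jp, if_true, Sum.elim_inr]
      field_simp
  · rintro (a | a)
    · simp only [Sum.elim_inl]
      exact mul_ne_zero (one_div_ne_zero w1) (h1.nz a)
    · simp only [Sum.elim_inr]
      exact mul_ne_zero (one_div_ne_zero w2) (h2.nz a)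

end Pool.Agent.TH296.Nut
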